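import Mathlib

/-! # Closure properties of computable and recursively enumerable predicates -/

set_option autoImplicit false

namespace Pool.Agent.MP_abf483_lc

open Nat.Partrec (Code)

section CP

variable {α β σ : Type*} [Primcodable α] [Primcodable β] [Primcodable σ]

theorem cp_bool {f : α → Bool} (hf : Computable f) : ComputablePred fun a => f a = true :=
  ComputablePred.computable_iff.2 ⟨f, hf, rfl⟩

theorem cp_comp {p : β → Prop} {f : α → β} (hp : ComputablePred p) (hf : Computable f) :
    ComputablePred fun a => p (f a) := by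
  obtain ⟨g, hg, rfl⟩ := ComputablePred.computable_iff.1 hp
  exact cp_bool (hg.comp hf)

theorem cp_and {p q : α → Prop} (hp : ComputablePred p) (hq : ComputablePred q) :
    ComputablePred fun a => p a ∧ q a := by
  obtain ⟨f, hf, rfl⟩ := ComputablePred.computable_iff.1 hp
  obtain ⟨g, hg, rfl⟩ := ComputablePred.computable_iff.1 hq
  refine (cp_bool (f := fun a => f a && g a) ?_).of_eq fun a => by simp
  exact (Primrec.and.to_comp).comp hf hg

theorem cp_not {p : α → Prop} (hp : ComputablePred p) : ComputablePred fun a => ¬ p a :=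
  hp.not

theorem cp_or {p q : α → Prop} (hp : ComputablePred p) (hq : ComputablePred q) :
    ComputablePred fun a => p a ∨ q a := by
  obtain ⟨f, hf, rfl⟩ := ComputablePred.computable_iff.1 hp
  obtain ⟨g, hg, rfl⟩ := ComputablePred.computable_iff.1 hq
  refine (cp_bool (f := fun a => f a || g a) ?_).of_eq fun a => by simp
  exact (Primrec.or.to_comp).comp hf hg

theorem cp_imp {p q : α → Prop} (hp : ComputablePred p) (hq : ComputablePred q) :
    ComputablePred fun a => p a → q a :=
  (cp_or (cp_not hp) hq).of_eq fun a => by tauto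

theorem cp_eq [DecidableEq σ] {f g : α → σ} (hf : Computable f) (hg : Computable g) :
    ComputablePred fun a => f a = g a := by
  refine (cp_bool (f := fun a => decide (f a = g a)) ?_).of_eq fun a => by simp
  exact (Primrec.eq (α := σ)).decide.to_comp.comp hf hg

theorem cp_le {f g : α → ℕ} (hf : Computable f) (hg : Computable g) :
    ComputablePred fun a => f a ≤ g a := by
  refine (cp_bool (f := fun a => decide (f a ≤ g a)) ?_).of_eq fun a => by simp
  exact Primrec.nat_le.decide.to_comp.comp hf hg

theorem cp_lt {f g : α → ℕ} (hf : Computable f) (hg : Computable g) :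
    ComputablePred fun a => f a < g a := by
  refine (cp_bool (f := fun a => decide (f a < g a)) ?_).of_eq fun a => by simp
  exact Primrec.nat_lt.decide.to_comp.comp hf hg

/-- bounded universal quantification -/
theorem cp_ball {p : α → ℕ → Prop} {f : α → ℕ}
    (hp : ComputablePred fun x : α × ℕ => p x.1 x.2) (hf : Computable f) :
    ComputablePred fun a => ∀ n < f a, p a n := by
  obtain ⟨g, hg, hpg⟩ := ComputablePred.computable_iff.1 hp
  have hpg' : ∀ a n, p a n ↔ g (a, n) = true := fun a n => by
    have := congrFun hpg (a, n)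
    simpa using this
  have h1 : Computable fun a => (Nat.rec true (fun n IH => IH && g (a, n)) (f a) : Bool) := by
    refine Computable.nat_rec (h := fun a (q : ℕ × Bool) => q.2 && g (a, q.1)) hf
      (Computable.const true) ?_
    exact (Primrec.and.to_comp).comp (Computable.snd.comp Computable.snd)
      (hg.comp (Computable.pair Computable.fst (Computable.fst.comp Computable.snd)))
  refine (cp_bool h1).of_eq fun a => ?_
  have : ∀ N : ℕ, ((Nat.rec true (fun n IH => IH && g (a, n)) N : Bool) = true) ↔
      ∀ n < N, p a n := by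
    intro N
    induction N with
    | zero => simp
    | succ N ih =>
      have e : (Nat.rec true (fun n IH => IH && g (a, n)) (N + 1) : Bool) =
        ((Nat.rec true (fun n IH => IH && g (a, n)) N : Bool) && g (a, N)) := rfl
      rw [e, Bool.and_eq_true, ih, ← hpg']
      constructor
      · rintro ⟨h1, h2⟩ n hn
        rcases Nat.lt_succ_iff_lt_or_eq.1 hn with h | rfl
        · exact h1 n h
        · exact h2
      · intro h
        exact ⟨fun n hn => h n (by omega), h N (by omega)⟩
  exact this (f a)

/-- bounded existential quantification -/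
theorem cp_bex {p : α → ℕ → Prop} {f : α → ℕ}
    (hp : ComputablePred fun x : α × ℕ => p x.1 x.2) (hf : Computable f) :
    ComputablePred fun a => ∃ n < f a, p a n :=
  (cp_not (cp_ball (p := fun a n => ¬ p a n) (cp_not hp) hf)).of_eq fun a => by
    push Not; rfl

end CP

section RE

variable {α β σ : Type*} [Primcodable α] [Primcodable β] [Primcodable σ]

/-- `Σ₁` normal form of a recursively enumerable predicate -/
theorem re_iff_exists {p : α → Prop} :
    REPred p ↔ ∃ R : α → ℕ → Bool, Computable₂ R ∧ ∀ a, p a ↔ ∃ n, R a n = true := by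
  constructor
  · intro hp
    obtain ⟨c, hc⟩ := Nat.Partrec.Code.exists_code.1 hp
    refine ⟨fun a n => (Nat.Partrec.Code.evaln n c (Encodable.encode a)).isSome, ?_, ?_⟩
    · refine (Primrec.option_isSome.comp (Nat.Partrec.Code.primrec_evaln.comp
        (Primrec.pair (Primrec.pair Primrec.snd (Primrec.const c))
          (Primrec.encode.comp Primrec.fst)))).to_comp
    · intro a
      have h1 : (Nat.Partrec.Code.eval c (Encodable.encode a)).Dom ↔ p a := by
        rw [hc]
        simp only [Encodable.encodek, Part.coe_some, Part.bind_some, Part.map_Dom]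
        exact ⟨fun h => h.1, fun h => ⟨h, trivial⟩⟩
      rw [← h1, Part.dom_iff_mem]
      constructor
      · rintro ⟨y, hy⟩
        obtain ⟨k, hk⟩ := Nat.Partrec.Code.evaln_complete.1 hy
        exact ⟨k, by rw [Option.mem_def] at hk; beta_reduce; rw [hk]; rfl⟩
      · rintro ⟨k, hk⟩
        obtain ⟨y, hy⟩ := Option.isSome_iff_exists.1 hk
        exact ⟨y, Nat.Partrec.Code.evaln_sound hy⟩
  · rintro ⟨R, hR, h⟩
    have h1 : Partrec fun a => Nat.rfind fun n => (Part.some (R a n)) :=
      Partrec.rfind (Computable.partrec hR)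
    refine h1.dom_re.of_eq fun a => ?_
    rw [h]
    refine Iff.trans Nat.rfind_dom ?_
    constructor
    · rintro ⟨n, hn, -⟩
      exact ⟨n, (Part.mem_some_iff.1 hn).symm⟩
    · rintro ⟨n, hn⟩
      exact ⟨n, Part.mem_some_iff.2 hn.symm, fun {m} _ => trivial⟩

theorem re_comp {p : β → Prop} {f : α → β} (hp : REPred p) (hf : Computable f) :
    REPred fun a => p (f a) :=
  Partrec.comp hp hf

theorem re_and {p q : α → Prop} (hp : REPred p) (hq : REPred q) :
    REPred fun a => p a ∧ q a := by
  obtain ⟨R, hR, h1⟩ := re_iff_exists.1 hp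
  obtain ⟨S, hS, h2⟩ := re_iff_exists.1 hq
  refine re_iff_exists.2 ⟨fun a n => R a n.unpair.1 && S a n.unpair.2, ?_, fun a => ?_⟩
  · exact (Primrec.and.to_comp).comp
      (hR.comp Computable.fst (Computable.fst.comp (Computable.unpair.comp Computable.snd)))
      (hS.comp Computable.fst (Computable.snd.comp (Computable.unpair.comp Computable.snd)))
  · rw [h1, h2]
    constructor
    · rintro ⟨⟨n, hn⟩, ⟨m, hm⟩⟩
      exact ⟨Nat.pair n m, by simp [hn, hm]⟩
    · rintro ⟨n, hn⟩
      rw [Bool.and_eq_true] at hn
      exact ⟨⟨_, hn.1⟩, ⟨_, hn.2⟩⟩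

theorem re_or {p q : α → Prop} (hp : REPred p) (hq : REPred q) :
    REPred fun a => p a ∨ q a := by
  obtain ⟨R, hR, h1⟩ := re_iff_exists.1 hp
  obtain ⟨S, hS, h2⟩ := re_iff_exists.1 hq
  refine re_iff_exists.2 ⟨fun a n => R a n || S a n, ?_, fun a => ?_⟩
  · exact (Primrec.or.to_comp).comp (hR.comp Computable.fst Computable.snd)
      (hS.comp Computable.fst Computable.snd)
  · rw [h1, h2]
    constructor
    · rintro (⟨n, hn⟩ | ⟨n, hn⟩)
      · exact ⟨n, by simp [hn]⟩
      · exact ⟨n, by simp [hn]⟩
    · rintro ⟨n, hn⟩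
      rw [Bool.or_eq_true] at hn
      exact hn.imp (fun h => ⟨_, h⟩) (fun h => ⟨_, h⟩)

theorem re_ex {p : α → β → Prop} (hp : REPred fun x : α × β => p x.1 x.2) :
    REPred fun a => ∃ b, p a b := by
  obtain ⟨R, hR, h1⟩ := re_iff_exists.1 hp
  have h1' : ∀ a b, p a b ↔ ∃ n, R (a, b) n = true := fun a b => h1 (a, b)
  refine re_iff_exists.2 ⟨fun a n =>
    ((Encodable.decode (α := β) n.unpair.1).map fun b => R (a, b) n.unpair.2).getD false, ?_,
    fun a => ?_⟩
  · refine Computable.option_getD ?_ (Computable.const false)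
    refine Computable.option_map (Computable.decode.comp
      (Computable.fst.comp (Computable.unpair.comp Computable.snd))) ?_
    exact hR.comp (Computable.pair (Computable.fst.comp Computable.fst) Computable.snd)
      (Computable.snd.comp (Computable.unpair.comp (Computable.snd.comp Computable.fst)))
  · constructor
    · rintro ⟨b, hb⟩
      obtain ⟨n, hn⟩ := (h1' a b).1 hb
      exact ⟨Nat.pair (Encodable.encode b) n, by simp [hn]⟩
    · rintro ⟨n, hn⟩
      beta_reduce at hn
      rcases hd : (Encodable.decode (α := β) n.unpair.1) with _ | b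
      · rw [hd] at hn; simp at hn
      · rw [hd] at hn
        simp only [Option.map_some, Option.getD_some] at hn
        exact ⟨b, (h1' a b).2 ⟨_, hn⟩⟩

theorem re_const (c : Prop) : REPred fun _ : α => c := by
  classical
  by_cases hc : c
  · exact ((cp_bool (Computable.const true)).to_re).of_eq fun a => by simp [hc]
  · exact ((cp_bool (Computable.const false)).to_re).of_eq fun a => by simp [hc]

end RE

/-- stage approximation of the `e`-th r.e. set -/
def Wst (e s y : ℕ) : Bool := (Nat.Partrec.Code.evaln s (Denumerable.ofNat Code e) y).isSome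

theorem Wst_mono {e s t y : ℕ} (hst : s ≤ t) (h : Wst e s y = true) : Wst e t y = true := by
  unfold Wst at *
  obtain ⟨v, hv⟩ := Option.isSome_iff_exists.1 h
  have := Nat.Partrec.Code.evaln_mono hst (Option.mem_def.2 hv)
  rw [Option.mem_def] at this
  rw [this]; rfl

theorem Wst_prim : Primrec fun x : (ℕ × ℕ) × ℕ => Wst x.1.1 x.1.2 x.2 := by
  unfold Wst
  refine Primrec.option_isSome.comp (Nat.Partrec.Code.primrec_evaln.comp
    (Primrec.pair (Primrec.pair (Primrec.snd.comp Primrec.fst)
      ((Primrec.ofNat Code).comp (Primrec.fst.comp Primrec.fst))) Primrec.snd))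

theorem Wst_comp {α : Type*} [Primcodable α] {e s y : α → ℕ} (he : Computable e)
    (hs : Computable s) (hy : Computable y) : Computable fun a => Wst (e a) (s a) (y a) :=
  Wst_prim.to_comp.comp (Computable.pair (Computable.pair he hs) hy)

theorem exists_index {D : ℕ → Prop} (hD : REPred D) : ∃ e, ∀ y, D y ↔ ∃ s, Wst e s y = true := by
  obtain ⟨c, hc⟩ := Nat.Partrec.Code.exists_code.1 hD
  refine ⟨Encodable.encode c, fun y => ?_⟩
  have h1 : (Nat.Partrec.Code.eval c y).Dom ↔ D y := by
    rw [hc]
    simp only [Encodable.decode_nat, Part.coe_some, Part.bind_some, Part.map_Dom]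
    exact ⟨fun h => h.1, fun h => ⟨h, trivial⟩⟩
  unfold Wst
  rw [← h1, Part.dom_iff_mem, Denumerable.ofNat_encode]
  constructor
  · rintro ⟨v, hv⟩
    obtain ⟨k, hk⟩ := Nat.Partrec.Code.evaln_complete.1 hv
    exact ⟨k, by rw [Option.mem_def] at hk; rw [hk]; rfl⟩
  · rintro ⟨k, hk⟩
    obtain ⟨v, hv⟩ := Option.isSome_iff_exists.1 hk
    exact ⟨v, Nat.Partrec.Code.evaln_sound hv⟩

theorem re_countable (α : Type*) [Primcodable α] :
    ∃ f : ℕ → (α → Prop), ∀ p : α → Prop, REPred p → ∃ n, f n = p := by
  refine ⟨fun e a => ∃ s, Wst e s (Encodable.encode a) = true, fun p hp => ?_⟩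
  have h1 : REPred fun n : ℕ => ∃ a : α, Encodable.encode a = n ∧ p a := by
    refine re_ex (p := fun n (a : α) => Encodable.encode a = n ∧ p a) ?_
    refine re_and (cp_eq (Computable.encode.comp Computable.snd) Computable.fst).to_re ?_
    exact re_comp hp Computable.snd
  obtain ⟨e, he⟩ := exists_index h1
  refine ⟨e, ?_⟩
  funext a
  refine propext ?_
  beta_reduce
  rw [← he]
  constructor
  · rintro ⟨b, hb, h⟩
    rwa [Encodable.encode_injective hb] at h
  · intro h
    exact ⟨a, rfl, h⟩

end Pool.Agent.MP_abf483_lc
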