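import Pool.Agent.MP_abf483_lc.CaseTwo

/-! # The leftmost path operator -/

set_option autoImplicit false

namespace Pool.Agent.MP_abf483_lc

/-- the block `b'` of the `e`-th column is met by stage `b` -/
def tchB (e b' b : ℕ) : Bool :=
  (List.range (2 ^ (b' + 1))).any fun k => decide (2 ^ b' ≤ k) && wcol e b k

theorem tchB_iff {e b' b : ℕ} : tchB e b' b = true ↔
    ∃ k ∈ List.range (2 ^ (b' + 1)), 2 ^ b' ≤ k ∧ wcol e b k = true := by
  unfold tchB
  simp only [List.any_eq_true, Bool.and_eq_true, decide_eq_true_eq]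

theorem tchB_false_iff {e b' b : ℕ} : tchB e b' b = false ↔
    ¬ ∃ k ∈ List.range (2 ^ (b' + 1)), 2 ^ b' ≤ k ∧ wcol e b k = true := by
  rw [← tchB_iff, Bool.not_eq_true]

/-- one level of the update -/
def ustep (e b : ℕ) (a : Bool × ℕ) (r : List (Bool × ℕ)) : List (Bool × ℕ) :=
  cond (tchB e a.2 b || r.isEmpty) (cond a.1 [] [(true, b + 1)]) (a :: r)

/-- the update of the current string -/
def upd (e b : ℕ) (l : List (Bool × ℕ)) : List (Bool × ℕ) :=
  l.foldr (ustep e b) [(false, b + 1)]

/-- the current string at stage `b` -/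
def st (e : ℕ) : ℕ → List (Bool × ℕ)
  | 0 => [(false, 0)]
  | b + 1 => cond (st e b).isEmpty [] (upd e b (st e b))

/-- the `x`-th bit -/
def bit (x : ℕ) (l : List (Bool × ℕ)) : Bool := ((l[x]?).map Prod.fst).getD false

/-! ### Computability -/

theorem wcol_prim {α : Type*} [Primcodable α] {e s k : α → ℕ} (he : Primrec e)
    (hs : Primrec s) (hk : Primrec k) : Primrec fun a => wcol (e a) (s a) (k a) := by
  unfold wcol
  refine Wst_prim.comp (Primrec.pair (Primrec.pair he hs) ?_)
  refine Primrec.nat_mul.comp (pow_prim.comp (Primrec.const 2) he) ?_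
  exact Primrec.succ.comp (Primrec.nat_double.comp hk)

theorem tchB_prim {α : Type*} [Primcodable α] {e b' b : α → ℕ} (he : Primrec e)
    (hb' : Primrec b') (hb : Primrec b) : Primrec fun a => tchB (e a) (b' a) (b a) := by
  have h1 : PrimrecRel fun (k : ℕ) (p : (ℕ × ℕ) × ℕ) =>
      2 ^ p.1.2 ≤ k ∧ wcol p.1.1 p.2 k = true := by
    refine PrimrecPred.and ?_ ?_
    · exact Primrec.nat_le.comp (pow_prim.comp (Primrec.const 2)
        (Primrec.snd.comp (Primrec.fst.comp Primrec.snd))) Primrec.fst
    · exact Primrec.eq.comp (wcol_prim (Primrec.fst.comp (Primrec.fst.comp Primrec.snd))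
        (Primrec.snd.comp Primrec.snd) Primrec.fst) (Primrec.const true)
  have h2 := h1.exists_mem_list
  have h3 : PrimrecPred fun a : α => ∃ k ∈ List.range (2 ^ (b' a + 1)),
      2 ^ b' a ≤ k ∧ wcol (e a) (b a) k = true := by
    refine h2.comp (f := fun a => List.range (2 ^ (b' a + 1)))
      (g := fun a => ((e a, b' a), b a)) ?_ ?_
    · exact Primrec.list_range.comp (pow_prim.comp (Primrec.const 2) (Primrec.succ.comp hb'))
    · exact Primrec.pair (Primrec.pair he hb') hb
  classical
  refine h3.decide.of_eq fun a => ?_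
  rw [Bool.eq_iff_iff, decide_eq_true_eq, tchB_iff]

theorem isEmpty_prim {β : Type*} [Primcodable β] : Primrec fun l : List β => l.isEmpty := by
  refine (Primrec.list_casesOn (f := fun l : List β => l) (g := fun _ => true)
    (h := fun _ _ => false) Primrec.id (Primrec.const true) (Primrec.const false).to₂).of_eq
    fun l => ?_
  cases l <;> rfl

theorem upd_prim : Primrec fun p : (ℕ × ℕ) × List (Bool × ℕ) => upd p.1.1 p.1.2 p.2 := by
  unfold upd
  refine Primrec.list_foldr (f := fun p : (ℕ × ℕ) × List (Bool × ℕ) => p.2)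
    (g := fun p => [(false, p.1.2 + 1)]) (h := fun p q => ustep p.1.1 p.1.2 q.1 q.2)
    Primrec.snd ?_ ?_
  · refine Primrec.list_cons.comp (Primrec.pair (Primrec.const false) ?_) (Primrec.const [])
    exact Primrec.succ.comp (Primrec.snd.comp Primrec.fst)
  · unfold ustep
    have hA : Primrec fun y : ((ℕ × ℕ) × List (Bool × ℕ)) × ((Bool × ℕ) × List (Bool × ℕ)) =>
      y.2.1 := Primrec.fst.comp Primrec.snd
    have hR : Primrec fun y : ((ℕ × ℕ) × List (Bool × ℕ)) × ((Bool × ℕ) × List (Bool × ℕ)) =>
      y.2.2 := Primrec.snd.comp Primrec.snd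
    have hB : Primrec fun y : ((ℕ × ℕ) × List (Bool × ℕ)) × ((Bool × ℕ) × List (Bool × ℕ)) =>
      y.1.1.2 := Primrec.snd.comp (Primrec.fst.comp Primrec.fst)
    have hE : Primrec fun y : ((ℕ × ℕ) × List (Bool × ℕ)) × ((Bool × ℕ) × List (Bool × ℕ)) =>
      y.1.1.1 := Primrec.fst.comp (Primrec.fst.comp Primrec.fst)
    refine Primrec.cond (Primrec.or.comp (tchB_prim hE (Primrec.snd.comp hA) hB)
      (isEmpty_prim.comp hR)) (Primrec.cond (Primrec.fst.comp hA) (Primrec.const []) ?_) ?_
    · exact Primrec.list_cons.comp (Primrec.pair (Primrec.const true) (Primrec.succ.comp hB))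
        (Primrec.const [])
    · exact Primrec.list_cons.comp hA hR

theorem st_prim : Primrec₂ st := by
  have h1 : Primrec₂ fun (e b : ℕ) => (Nat.rec [(false, 0)]
      (fun n IH => cond (List.isEmpty IH) [] (upd e n IH)) b : List (Bool × ℕ)) := by
    refine Primrec.nat_rec (f := fun _ => [(false, 0)])
      (g := fun e (q : ℕ × List (Bool × ℕ)) => cond (List.isEmpty q.2) [] (upd e q.1 q.2))
      (Primrec.const _) ?_
    refine Primrec.cond (isEmpty_prim.comp (Primrec.snd.comp Primrec.snd)) (Primrec.const []) ?_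
    exact upd_prim.comp (Primrec.pair (Primrec.pair Primrec.fst (Primrec.fst.comp Primrec.snd))
      (Primrec.snd.comp Primrec.snd))
  refine h1.of_eq fun e b => ?_
  induction b with
  | zero => rfl
  | succ b ih =>
    show cond (List.isEmpty _) [] (upd e b _) = cond (st e b).isEmpty [] (upd e b (st e b))
    rw [ih]

theorem bit_prim : Primrec₂ bit := by
  unfold bit
  refine Primrec.option_getD.comp (Primrec.option_map (Primrec.list_getElem?.comp Primrec.snd
    Primrec.fst) ?_) (Primrec.const false)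
  exact Primrec.fst.comp Primrec.snd

/-! ### Combinatorics of the update -/

theorem upd_nil (e b : ℕ) : upd e b [] = [(false, b + 1)] := rfl

theorem upd_cons (e b : ℕ) (a : Bool × ℕ) (l : List (Bool × ℕ)) :
    upd e b (a :: l) = cond (tchB e a.2 b || (upd e b l).isEmpty) (cond a.1 [] [(true, b + 1)])
      (a :: upd e b l) := rfl

/-- case analysis for the update -/
theorem upd_cases (e b : ℕ) (a : Bool × ℕ) (l : List (Bool × ℕ)) :
    ((tchB e a.2 b = true ∨ upd e b l = []) ∧
      ((a.1 = true ∧ upd e b (a :: l) = []) ∨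
        (a.1 = false ∧ upd e b (a :: l) = [(true, b + 1)]))) ∨
    (tchB e a.2 b = false ∧ upd e b l ≠ [] ∧ upd e b (a :: l) = a :: upd e b l) := by
  rw [upd_cons]
  rcases ht : tchB e a.2 b with _ | _
  · rcases hr : (upd e b l).isEmpty with _ | _
    · right
      refine ⟨rfl, ?_, rfl⟩
      intro h
      rw [h] at hr
      exact absurd hr (by simp)
    · left
      refine ⟨Or.inr (List.isEmpty_iff.1 hr), ?_⟩
      rcases ha : a.1 with _ | _
      · exact Or.inr ⟨rfl, rfl⟩
      · exact Or.inl ⟨rfl, rfl⟩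
  · left
    refine ⟨Or.inl rfl, ?_⟩
    rcases ha : a.1 with _ | _
    · exact Or.inr ⟨rfl, rfl⟩
    · exact Or.inl ⟨rfl, rfl⟩

/-- `X` is to the left of the string `l` (read from coordinate `d`) -/
def Lft (X : ℕ → Bool) : ℕ → List (Bool × ℕ) → Prop
  | _, [] => False
  | d, a :: l => (X d = false ∧ a.1 = true) ∨ (X d = a.1 ∧ Lft X (d + 1) l)

/-- `X` extends a met initial segment of `l` -/
def TP (e b : ℕ) (X : ℕ → Bool) : ℕ → List (Bool × ℕ) → Prop
  | _, [] => False
  | d, a :: l => X d = a.1 ∧ (tchB e a.2 b = true ∨ TP e b X (d + 1) l)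

theorem cover_step (e b : ℕ) (X : ℕ → Bool) (l : List (Bool × ℕ)) :
    ∀ d, (upd e b l = [] ∨ Lft X d (upd e b l)) → Lft X d l ∨ TP e b X d l := by
  induction l with
  | nil =>
    intro d h
    rw [upd_nil] at h
    rcases h with h | h | h
    · exact absurd h (by simp)
    · exact absurd h.2 (by simp)
    · exact h.2.elim
  | cons a l ih =>
    intro d h
    rcases upd_cases e b a l with ⟨h1, h2⟩ | ⟨h1, h2, h3⟩
    · -- the cone of `a` is covered
      have key : X d = a.1 → Lft X d (a :: l) ∨ TP e b X d (a :: l) := by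
        intro hX
        rcases h1 with h1 | h1
        · exact Or.inr ⟨hX, Or.inl h1⟩
        · rcases ih (d + 1) (Or.inl h1) with h4 | h4
          · exact Or.inl (Or.inr ⟨hX, h4⟩)
          · exact Or.inr ⟨hX, Or.inr h4⟩
      rcases h2 with ⟨ha, h2⟩ | ⟨ha, h2⟩
      · rcases hX : X d with _ | _
        · exact Or.inl (Or.inl ⟨hX, ha⟩)
        · exact key (by rw [hX, ha])
      · rw [h2] at h
        rcases h with h | h | h
        · exact absurd h (by simp)
        · exact key (by rw [h.1, ha])
        · exact h.2.elim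
    · rw [h3] at h
      rcases h with h | h | h
      · exact absurd h (by simp)
      · exact Or.inl (Or.inl h)
      · rcases ih (d + 1) (Or.inr h.2) with h4 | h4
        · exact Or.inl (Or.inr ⟨h.1, h4⟩)
        · exact Or.inr ⟨h.1, Or.inr h4⟩

theorem upd_struct (e b : ℕ) (l : List (Bool × ℕ)) :
    upd e b l = [] ∨ ∃ i ≤ l.length, ∃ v, upd e b l = l.take i ++ [(v, b + 1)] := by
  induction l with
  | nil => exact Or.inr ⟨0, le_rfl, false, rfl⟩
  | cons a l ih =>
    rcases upd_cases e b a l with ⟨_, ⟨_, h2⟩ | ⟨_, h2⟩⟩ | ⟨h1, h2, h3⟩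
    · exact Or.inl h2
    · exact Or.inr ⟨0, Nat.zero_le _, true, by rw [h2]; rfl⟩
    · rcases ih with h | ⟨i, hi, v, h⟩
      · exact (h2 h).elim
      · refine Or.inr ⟨i + 1, by simpa using hi, v, ?_⟩
        rw [h3, h]
        rfl

theorem bit_zero_cons (a : Bool × ℕ) (l : List (Bool × ℕ)) : bit 0 (a :: l) = a.1 := rfl

theorem bit_succ_cons (x : ℕ) (a : Bool × ℕ) (l : List (Bool × ℕ)) :
    bit (x + 1) (a :: l) = bit x l := rfl

theorem bit_nil (x : ℕ) : bit x [] = false := rfl

theorem bit_mono (e b : ℕ) (l : List (Bool × ℕ)) : ∀ x, upd e b l ≠ [] →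
    (∀ i < x, bit i (upd e b l) = bit i l) → bit x l = true → bit x (upd e b l) = true := by
  induction l with
  | nil =>
    intro x _ _ h
    rw [bit_nil] at h
    exact absurd h (by simp)
  | cons a l ih =>
    intro x hne hi hx
    rcases upd_cases e b a l with ⟨_, ⟨_, h2⟩ | ⟨ha, h2⟩⟩ | ⟨h1, h2, h3⟩
    · exact (hne h2).elim
    · rcases x with _ | x
      · rw [bit_zero_cons, ha] at hx
        exact absurd hx (by simp)
      · have := hi 0 (Nat.succ_pos x)
        rw [h2, bit_zero_cons, bit_zero_cons, ha] at this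
        exact absurd this (by simp)
    · rw [h3] at hi ⊢
      rcases x with _ | x
      · exact hx
      · refine ih x h2 (fun i hix => ?_) hx
        exact hi (i + 1) (Nat.succ_lt_succ hix)

theorem len_grow (e b : ℕ) (l : List (Bool × ℕ)) : ∀ n, upd e b l ≠ [] →
    (∀ i ≤ n, bit i (upd e b l) = bit i l) →
    min (l.length + 1) (n + 2) ≤ (upd e b l).length := by
  induction l with
  | nil =>
    intro n _ _
    rw [upd_nil]
    simp
  | cons a l ih =>
    intro n hne hi
    rcases upd_cases e b a l with ⟨_, ⟨_, h2⟩ | ⟨ha, h2⟩⟩ | ⟨h1, h2, h3⟩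
    · exact (hne h2).elim
    · have := hi 0 (Nat.zero_le n)
      rw [h2, bit_zero_cons, bit_zero_cons, ha] at this
      exact absurd this (by simp)
    · rw [h3] at hi ⊢
      rcases n with _ | n
      · have : 0 < (upd e b l).length := List.length_pos_iff.2 h2
        simp only [List.length_cons]
        omega
      · have := ih n h2 (fun i hin => hi (i + 1) (Nat.succ_le_succ hin))
        simp only [List.length_cons]
        omega

theorem entry_stable (e b : ℕ) (l : List (Bool × ℕ)) : ∀ n, upd e b l ≠ [] →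
    (∀ i ≤ n, bit i (upd e b l) = bit i l) → ∀ a, l[n]? = some a →
    (upd e b l)[n]? = some a ∧ tchB e a.2 b = false := by
  induction l with
  | nil =>
    intro n _ _ a ha
    simp at ha
  | cons c l ih =>
    intro n hne hi a ha
    rcases upd_cases e b c l with ⟨_, ⟨_, h2⟩ | ⟨hc, h2⟩⟩ | ⟨h1, h2, h3⟩
    · exact (hne h2).elim
    · have := hi 0 (Nat.zero_le n)
      rw [h2, bit_zero_cons, bit_zero_cons, hc] at this
      exact absurd this (by simp)
    · rw [h3] at hi ⊢
      rcases n with _ | n
      · have hca : c = a := by simpa using ha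
        subst hca
        exact ⟨rfl, h1⟩
      · have := ih n h2 (fun i hin => hi (i + 1) (Nat.succ_le_succ hin)) a (by simpa using ha)
        exact ⟨by simpa using this.1, this.2⟩

/-! ### The sequence of strings -/

theorem st_succ_nil {e b : ℕ} (h : st e b = []) : st e (b + 1) = [] := by
  show cond (st e b).isEmpty [] (upd e b (st e b)) = []
  rw [h]; rfl

theorem st_succ {e b : ℕ} (h : st e b ≠ []) : st e (b + 1) = upd e b (st e b) := by
  show cond (st e b).isEmpty [] (upd e b (st e b)) = upd e b (st e b)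
  have : (st e b).isEmpty = false := by
    rw [List.isEmpty_eq_false_iff]; exact h
  rw [this]; rfl

theorem st_nil_mono {e b c : ℕ} (hbc : b ≤ c) (h : st e b = []) : st e c = [] := by
  induction c, hbc using Nat.le_induction with
  | base => exact h
  | succ c _ ih => exact st_succ_nil ih

theorem st_length (e b : ℕ) : (st e b).length ≤ b + 1 := by
  induction b with
  | zero => exact le_rfl
  | succ b ih =>
    by_cases h : st e b = []
    · rw [st_succ_nil h]; simp
    · rw [st_succ h]
      rcases upd_struct e b (st e b) with h1 | ⟨i, hi, v, h1⟩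
      · rw [h1]; simp
      · rw [h1]
        simp only [List.length_append, List.length_take, List.length_cons, List.length_nil]
        omega

/-- the prefixes of the current string were current strings before -/
theorem st_prefix (e b : ℕ) : ∀ n a, (st e b)[n]? = some a →
    st e a.2 = (st e b).take (n + 1) := by
  induction b with
  | zero =>
    intro n a h
    rcases n with _ | n
    · have : (false, 0) = a := by simpa [st] using h
      subst this
      rfl
    · simp [st] at h
  | succ b ih =>
    intro n a h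
    by_cases hnil : st e b = []
    · rw [st_succ_nil hnil] at h
      simp at h
    · rw [st_succ hnil] at h ⊢
      rcases upd_struct e b (st e b) with h1 | ⟨i, hi, v, h1⟩
      · rw [h1] at h; simp at h
      · have hlen : (List.take i (st e b)).length = i := by
          rw [List.length_take]; omega
        rcases Nat.lt_trichotomy n i with hni | hni | hni
        · rw [h1] at h ⊢
          rw [List.getElem?_append_left (by omega)] at h
          rw [List.getElem?_take_of_lt hni] at h
          rw [ih n a h, List.take_append_of_le_length (by omega), List.take_take]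
          congr 1
          omega
        · subst hni
          have ha : a = (v, b + 1) := by
            rw [h1, List.getElem?_append_right (by omega), hlen] at h
            simpa using h.symm
          rw [ha]
          show st e (b + 1) = _
          rw [st_succ hnil, List.take_of_length_le]
          rw [h1, List.length_append, hlen]
          simp
        · rw [h1, List.getElem?_append_right (by omega), hlen] at h
          rw [List.getElem?_eq_none (by simp; omega)] at h
          exact absurd h (by simp)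

/-- `X` lies in the cone of a met block -/
def Cov (e : ℕ) (X : ℕ → Bool) : Prop :=
  ∃ b', st e b' ≠ [] ∧ (∀ x a, (st e b')[x]? = some a → X x = a.1) ∧ ∃ s, tchB e b' s = true

theorem TP_iff (e b : ℕ) (X : ℕ → Bool) (l : List (Bool × ℕ)) : ∀ d, TP e b X d l →
    ∃ n a, l[n]? = some a ∧ tchB e a.2 b = true ∧
      ∀ x ≤ n, ∀ c, l[x]? = some c → X (d + x) = c.1 := by
  induction l with
  | nil => intro d h; exact h.elim
  | cons c l ih =>
    rintro d ⟨h1, h2 | h2⟩
    · refine ⟨0, c, rfl, h2, ?_⟩
      intro x hx c' hc'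
      have : x = 0 := by omega
      subst this
      have : c = c' := by simpa using hc'
      rw [← this]
      exact h1
    · obtain ⟨n, a, h3, h4, h5⟩ := ih (d + 1) h2
      refine ⟨n + 1, a, by simpa using h3, h4, ?_⟩
      intro x hx c' hc'
      rcases x with _ | x
      · have : c = c' := by simpa using hc'
        rw [← this]
        exact h1
      · have := h5 x (by omega) c' (by simpa using hc')
        rw [← this]
        congr 1
        omega

theorem cov_of_TP {e b : ℕ} {X : ℕ → Bool} (h : TP e b X 0 (st e b)) : Cov e X := by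
  obtain ⟨n, a, h1, h2, h3⟩ := TP_iff e b X _ 0 h
  have h4 := st_prefix e b n a h1
  refine ⟨a.2, ?_, ?_, b, h2⟩
  · rw [h4]
    intro h5
    rw [List.take_eq_nil_iff] at h5
    rcases h5 with h5 | h5
    · omega
    · rw [h5] at h1; simp at h1
  · intro x c hc
    rw [h4] at hc
    have hx : x < n + 1 := by
      by_contra hcon
      rw [List.getElem?_take_eq_none (by omega)] at hc
      exact absurd hc (by simp)
    rw [List.getElem?_take_of_lt hx] at hc
    have := h3 x (by omega) c hc
    rwa [Nat.zero_add] at this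

theorem left_cov (e b : ℕ) (X : ℕ → Bool) : Lft X 0 (st e b) → Cov e X := by
  induction b with
  | zero =>
    rintro (h | h)
    · exact absurd h.2 (by simp)
    · exact h.2.elim
  | succ b ih =>
    intro h
    by_cases hnil : st e b = []
    · rw [st_succ_nil hnil] at h
      exact h.elim
    · rw [st_succ hnil] at h
      rcases cover_step e b X _ 0 (Or.inr h) with h1 | h1
      · exact ih h1
      · exact cov_of_TP h1

/-- if the strings run out, then every set lies in a met cone -/
theorem dead_cov {e b : ℕ} (h : st e b = []) (X : ℕ → Bool) : Cov e X := by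
  induction b with
  | zero => exact absurd h (by simp [st])
  | succ b ih =>
    by_cases hnil : st e b = []
    · exact ih hnil
    · rw [st_succ hnil] at h
      rcases cover_step e b X _ 0 (Or.inl h) with h1 | h1
      · exact left_cov e b X h1
      · exact cov_of_TP h1

section alive

variable {e : ℕ} (hal : ∀ b, st e b ≠ [])

include hal

theorem alive_succ (b : ℕ) : st e (b + 1) = upd e b (st e b) := st_succ (hal b)

theorem upd_ne (b : ℕ) : upd e b (st e b) ≠ [] := by
  rw [← alive_succ hal b]; exact hal _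

theorem bits_stable (n : ℕ) : ∃ N, ∀ b ≥ N, ∀ i < n, bit i (st e b) = bit i (st e N) := by
  induction n with
  | zero => exact ⟨0, fun b _ i hi => (Nat.not_lt_zero i hi).elim⟩
  | succ n ih =>
    obtain ⟨N, hN⟩ := ih
    by_cases hex : ∃ M ≥ N, bit n (st e M) = true
    · obtain ⟨M, hMN, hM⟩ := hex
      refine ⟨M, fun b hb i hi => ?_⟩
      rcases Nat.lt_succ_iff_lt_or_eq.1 hi with h | rfl
      · rw [hN b (by omega) i h, hN M hMN i h]
      · rw [hM]
        induction b, hb using Nat.le_induction with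
        | base => exact hM
        | succ b hb ih =>
          rw [alive_succ hal b]
          refine bit_mono e b _ i (upd_ne hal b) (fun x hx => ?_) ih
          rw [← alive_succ hal b, hN (b + 1) (by omega) x hx, hN b (by omega) x hx]
    · push Not at hex
      refine ⟨N, fun b hb i hi => ?_⟩
      rcases Nat.lt_succ_iff_lt_or_eq.1 hi with h | rfl
      · exact hN b hb i h
      · have h1 : bit i (st e b) = false := by simpa using hex b hb
        have h2 : bit i (st e N) = false := by simpa using hex N le_rfl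
        rw [h1, h2]

theorem len_large (n : ℕ) : ∃ N, ∀ b ≥ N, n < (st e b).length ∧
    ∀ i < n + 1, bit i (st e b) = bit i (st e N) := by
  obtain ⟨N, hN⟩ := bits_stable hal (n + 1)
  have h1 : ∀ k, min (k + 1) (n + 2) ≤ (st e (N + k)).length := by
    intro k
    induction k with
    | zero =>
      have : 0 < (st e (N + 0)).length := List.length_pos_iff.2 (hal _)
      omega
    | succ k ih =>
      have h2 := len_grow e (N + k) (st e (N + k)) n (upd_ne hal _) (by
        intro i hi
        rw [← alive_succ hal (N + k), hN (N + k + 1) (by omega) i (by omega),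
          hN (N + k) (by omega) i (by omega)])
      rw [← alive_succ hal (N + k)] at h2
      have h3 : N + (k + 1) = N + k + 1 := by omega
      rw [h3]
      omega
  refine ⟨N + n, fun b hb => ⟨?_, fun i hi => ?_⟩⟩
  · obtain ⟨k, rfl⟩ := Nat.exists_eq_add_of_le (show N ≤ b by omega)
    have := h1 k
    omega
  · rw [hN b (by omega) i hi, hN (N + n) (by omega) i hi]

/-- if the strings do not run out, then infinitely many blocks are never met -/
theorem alive_misses (B : ℕ) : ∃ c ≥ B, ∀ s, tchB e c s = false := by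
  obtain ⟨N, hN⟩ := len_large hal B
  obtain ⟨a, ha⟩ : ∃ a, (st e N)[B]? = some a :=
    ⟨_, List.getElem?_eq_getElem (hN N le_rfl).1⟩
  have h1 : ∀ b ≥ N, (st e b)[B]? = some a := by
    intro b hb
    induction b, hb using Nat.le_induction with
    | base => exact ha
    | succ b hb ih =>
      rw [alive_succ hal b]
      refine (entry_stable e b _ B (upd_ne hal b) (fun i hi => ?_) a ih).1
      rw [← alive_succ hal b, (hN (b + 1) (by omega)).2 i (by omega),
        (hN b hb).2 i (by omega)]
  have h2 : ∀ b ≥ N, tchB e a.2 b = false := by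
    intro b hb
    refine (entry_stable e b _ B (upd_ne hal b) (fun i hi => ?_) a (h1 b hb)).2
    rw [← alive_succ hal b, (hN (b + 1) (by omega)).2 i (by omega),
      (hN b hb).2 i (by omega)]
  refine ⟨a.2, ?_, ?_⟩
  · have h3 := st_prefix e N B a ha
    have h4 := st_length e a.2
    rw [h3, List.length_take] at h4
    have := (hN N le_rfl).1
    omega
  · intro s
    by_contra hcon
    rw [Bool.not_eq_false] at hcon
    have h5 := h2 (max N s) (le_max_left _ _)
    rw [tchB_iff] at hcon
    rw [tchB_false_iff] at h5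
    apply h5
    obtain ⟨k, hk1, hk2, hk3⟩ := hcon
    exact ⟨k, hk1, hk2, wcol_mono (le_max_right _ _) hk3⟩

end alive

/-! ### The operator -/

/-- the released elements -/
def Rls1 (e : ℕ) (G : Set (ℕ × ℕ)) : Set ℕ :=
  {k | k = 0 ∨ ∃ b, inBlk b k ∧ (st e b = [] ∨
    ∃ q ∈ G, ∃ a, (st e b)[q.1]? = some a ∧ q.2 ≠ a.1.toNat)}

theorem Rls1_mono {e : ℕ} {G H : Set (ℕ × ℕ)} (h : G ⊆ H) : Rls1 e G ⊆ Rls1 e H := by
  rintro k (hk | ⟨b, hb, hk | ⟨q, hq, r⟩⟩)
  · exact Or.inl hk
  · exact Or.inr ⟨b, hb, Or.inl hk⟩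
  · exact Or.inr ⟨b, hb, Or.inr ⟨q, h hq, r⟩⟩

/-- the relation defining the operator -/
def rel1 (x : ℕ × (List (ℕ × ℕ) × ℕ)) : Prop := x.2.2 ∈ Rls1 x.1 {q | q ∈ x.2.1}

theorem relApp_rel1 (e : ℕ) (G : Set (ℕ × ℕ)) : relApp rel1 e G = Rls1 e G := by
  ext k
  constructor
  · rintro ⟨l, hl, hk⟩
    exact Rls1_mono (fun q hq => hl q hq) hk
  · rintro (hk | ⟨b, hb, hk | ⟨q, hq, r⟩⟩)
    · exact ⟨[], by simp, Or.inl hk⟩
    · exact ⟨[], by simp, Or.inr ⟨b, hb, Or.inl hk⟩⟩
    · exact ⟨[q], by simpa using hq, Or.inr ⟨b, hb, Or.inr ⟨q, by simp, r⟩⟩⟩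

theorem re_rel1 : REPred rel1 := by
  have h1 : REPred fun x : ℕ × (List (ℕ × ℕ) × ℕ) => x.2.2 = 0 ∨ ∃ b : ℕ,
      inBlk b x.2.2 ∧ (st x.1 b = [] ∨ ∃ c : (ℕ × ℕ) × (Bool × ℕ), c.1 ∈ x.2.1 ∧
        (st x.1 b)[c.1.1]? = some c.2 ∧ c.1.2 ≠ c.2.1.toNat) := by
    refine re_or (cp_eq (Computable.snd.comp Computable.snd) (Computable.const 0)).to_re ?_
    refine re_ex (p := fun (x : ℕ × (List (ℕ × ℕ) × ℕ)) (b : ℕ) =>
      inBlk b x.2.2 ∧ (st x.1 b = [] ∨ ∃ c : (ℕ × ℕ) × (Bool × ℕ), c.1 ∈ x.2.1 ∧
        (st x.1 b)[c.1.1]? = some c.2 ∧ c.1.2 ≠ c.2.1.toNat)) ?_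
    have F1 : Computable fun y : (ℕ × (List (ℕ × ℕ) × ℕ)) × ℕ => y.1.1 :=
      Computable.fst.comp Computable.fst
    have FL : Computable fun y : (ℕ × (List (ℕ × ℕ) × ℕ)) × ℕ => y.1.2.1 :=
      Computable.fst.comp (Computable.snd.comp Computable.fst)
    have FK : Computable fun y : (ℕ × (List (ℕ × ℕ) × ℕ)) × ℕ => y.1.2.2 :=
      Computable.snd.comp (Computable.snd.comp Computable.fst)
    have FS : Computable fun y : (ℕ × (List (ℕ × ℕ) × ℕ)) × ℕ => st y.1.1 y.2 :=
      st_prim.to_comp.comp F1 Computable.snd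
    refine re_and (cp_inBlk Computable.snd FK).to_re (re_or ?_ ?_)
    · exact (cp_eq FS (Computable.const [])).to_re
    · refine re_ex (p := fun (y : (ℕ × (List (ℕ × ℕ) × ℕ)) × ℕ)
        (c : (ℕ × ℕ) × (Bool × ℕ)) => c.1 ∈ y.1.2.1 ∧
        (st y.1.1 y.2)[c.1.1]? = some c.2 ∧ c.1.2 ≠ c.2.1.toNat) ?_
      refine (cp_and (cp_mem (FL.comp Computable.fst)
        (Computable.fst.comp Computable.snd)) (cp_and ?_ (cp_not ?_))).to_re
      · exact cp_eq (Computable.list_getElem?.comp (FS.comp Computable.fst)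
          (Computable.fst.comp (Computable.fst.comp Computable.snd)))
          (Computable.option_some.comp (Computable.snd.comp Computable.snd))
      · exact cp_eq (Computable.snd.comp (Computable.fst.comp Computable.snd))
          (toNat_comp (Computable.fst.comp (Computable.snd.comp Computable.snd)))
  refine h1.of_eq fun x => ?_
  constructor
  · rintro (hk | ⟨b, hb, hk | ⟨c, h1, h2, h3⟩⟩)
    · exact Or.inl hk
    · exact Or.inr ⟨b, hb, Or.inl hk⟩
    · exact Or.inr ⟨b, hb, Or.inr ⟨c.1, h1, c.2, h2, h3⟩⟩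
  · rintro (hk | ⟨b, hb, hk | ⟨q, h1, a, h2, h3⟩⟩)
    · exact Or.inl hk
    · exact Or.inr ⟨b, hb, Or.inl hk⟩
    · exact Or.inr ⟨b, hb, Or.inr ⟨(q, a), h1, h2, h3⟩⟩

/-- the dichotomy -/
theorem col1_dich (A : Set ℕ) (e : ℕ) (he : Z0 {k | ¬ ∃ s, wcol e s k = true}) :
    ∃ k, (∃ s, wcol e s k = true) ∧
      k ∉ Rls1 e {p | (p.1 ∈ A ∧ p.2 = 1) ∨ (p.1 ∉ A ∧ p.2 = 0)} := by
  classical
  by_cases hdead : ∃ b, st e b = []
  · obtain ⟨b, hb⟩ := hdead
    obtain ⟨b', hne, hext, s, hs⟩ := dead_cov hb (fun x => decide (x ∈ A))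
    rw [tchB_iff] at hs
    obtain ⟨k, hk1, hk2, hk3⟩ := hs
    rw [List.mem_range] at hk1
    refine ⟨k, ⟨s, hk3⟩, ?_⟩
    rintro (h0 | ⟨c, hc, h1 | ⟨q, hq, a, h1, h2⟩⟩)
    · have := Nat.two_pow_pos b'
      omega
    · rw [inBlk_unique hc ⟨hk2, hk1⟩] at h1
      exact hne h1
    · rw [inBlk_unique hc ⟨hk2, hk1⟩] at h1
      have h3 := hext q.1 a h1
      apply h2
      rcases hq with ⟨h4, h5⟩ | ⟨h4, h5⟩
      · rw [← h3, h5]
        simp [h4]
      · rw [← h3, h5]
        simp [h4]
  · push Not at hdead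
    exfalso
    obtain ⟨B, hB⟩ := meets_blocks he
    obtain ⟨c, hc, hmiss⟩ := alive_misses hdead B
    obtain ⟨k, hk1, hk2, hk3⟩ := hB c hc
    simp only [Set.mem_ofPred_eq, not_not] at hk3
    obtain ⟨s, hs⟩ := hk3
    have := hmiss s
    rw [tchB_false_iff] at this
    exact this ⟨k, List.mem_range.2 hk2, hk1, hs⟩

/-- `A` agrees on a set of density one with a limit computable set -/
def CoarseLim (A : Set ℕ) : Prop :=
  ∃ (Z : ℕ → ℕ → Bool) (z : ℕ → Bool), (Computable fun p : ℕ × ℕ => Z p.1 p.2) ∧
    (∀ x, ∃ N, ∀ s ≥ N, Z s x = z x) ∧ Z0 {x | ¬ (x ∈ A ↔ z x = true)}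

theorem col1_dense {A : Set ℕ} (hA : ¬ CoarseLim A) (e : ℕ) {G : Set (ℕ × ℕ)} (hG : Desc A G) :
    Z0 (Rls1 e G)ᶜ := by
  classical
  -- the set of unreleased blocks
  let U : Set ℕ := {b | st e b ≠ [] ∧ ∀ q ∈ G, ∀ a, (st e b)[q.1]? = some a → q.2 = a.1.toNat}
  by_cases hU : U.Finite
  · obtain ⟨M, hM⟩ : ∃ M, ∀ b ∈ U, b < M := by
      obtain ⟨M, hM⟩ := hU.bddAbove
      exact ⟨M + 1, fun b hb => Nat.lt_succ_of_le (hM hb)⟩
    refine Z0_finite ((Set.finite_Iio (2 ^ (M + 1))).subset ?_)
    intro k hk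
    by_contra hcon
    have hcon' : 2 ^ (M + 1) ≤ k := by simpa using hcon
    have hk0 : k ≠ 0 := by
      have := Nat.two_pow_pos (M + 1)
      omega
    obtain ⟨b, hb⟩ := exists_inBlk hk0
    apply hk
    refine Or.inr ⟨b, hb, ?_⟩
    by_contra hcon2
    push Not at hcon2
    have h1 : b ∈ U := by
      refine ⟨hcon2.1, fun q hq a ha => ?_⟩
      exact hcon2.2 q hq a ha
    have h2 := hM b h1
    have h5 : 2 ^ (b + 1) ≤ 2 ^ (M + 1) := Nat.pow_le_pow_right (by norm_num) (by omega)
    have := hb.2
    omega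
  · exfalso
    apply hA
    have hinf : ∀ N, ∃ b ∈ U, N ≤ b := by
      intro N
      by_contra hcon
      push Not at hcon
      exact hU ((Set.finite_Iio N).subset fun b hb => hcon b hb)
    have hal : ∀ b, st e b ≠ [] := by
      intro b hb
      obtain ⟨c, hc, hbc⟩ := hinf b
      exact hc.1 (st_nil_mono hbc hb)
    have hst := fun x => len_large hal x
    choose N hN using hst
    refine ⟨fun s x => bit x (st e s), fun x => bit x (st e (N x)), ?_, ?_, ?_⟩
    · exact bit_prim.to_comp.comp Computable.snd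
        (st_prim.to_comp.comp (Computable.const e) Computable.fst)
    · intro x
      exact ⟨N x, fun s hs => (hN x s hs).2 x (Nat.lt_succ_self x)⟩
    · refine hG.2.mono ?_
      intro x hx y hxy
      apply hx
      obtain ⟨b, hb, hbN⟩ := hinf (N x)
      have hlen := (hN x b hbN).1
      obtain ⟨a, ha⟩ : ∃ a, (st e b)[x]? = some a :=
        ⟨_, List.getElem?_eq_getElem hlen⟩
      have h1 : y = a.1.toNat := hb.2 _ hxy a ha
      have h2 : bit x (st e b) = a.1 := by
        unfold bit
        rw [ha]; rfl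
      have h3 := (hN x b hbN).2 x (Nat.lt_succ_self x)
      rw [h2] at h3
      show x ∈ A ↔ bit x (st e (N x)) = true
      rw [← h3]
      rcases hG.1 x y hxy with ⟨h4, h5⟩ | ⟨h4, h5⟩
      · rw [h5] at h1
        rcases ha1 : a.1 with _ | _
        · rw [ha1] at h1; exact absurd h1 (by decide)
        · simp [h4]
      · rw [h5] at h1
        rcases ha1 : a.1 with _ | _
        · simp [h4]
        · rw [ha1] at h1; exact absurd h1 (by decide)

theorem bounding_one {A : Set ℕ} (hA : ¬ CoarseLim A) : Bounding A := by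
  refine bounding_of_columns rel1 re_rel1
    (fun e => Rls1 e {p | (p.1 ∈ A ∧ p.2 = 1) ∨ (p.1 ∉ A ∧ p.2 = 0)}) ?_ ?_
  · intro e G hG
    rw [relApp_rel1]
    exact ⟨Rls1_mono fun p hp => hG.1 p.1 p.2 hp, col1_dense hA e hG⟩
  · intro e he
    exact col1_dich A e he

/-- every set which is not generically computable bounds -/
theorem bounding {A : Set ℕ} (hA : ¬ GenComp A) : Bounding A := by
  by_cases h : CoarseLim A
  · obtain ⟨Z, z, h1, h2, h3⟩ := h
    exact bounding_two hA Z z h1 h2 h3
  · exact bounding_one h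

end Pool.Agent.MP_abf483_lc
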