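import Pool.Agent.MP_abf483_lc.Combine

/-! # Sets which agree on a set of density one with a limit computable set -/

set_option autoImplicit false

namespace Pool.Agent.MP_abf483_lc

/-- the `b`-th dyadic block -/
def inBlk (b k : ℕ) : Prop := 2 ^ b ≤ k ∧ k < 2 ^ (b + 1)

theorem inBlk_unique {b b' k : ℕ} (h : inBlk b k) (h' : inBlk b' k) : b = b' := by
  have aux : ∀ {b b' k : ℕ}, inBlk b k → inBlk b' k → b ≤ b' := by
    intro b b' k h h'
    by_contra hcon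
    have h5 : 2 ^ (b' + 1) ≤ 2 ^ b := Nat.pow_le_pow_right (by norm_num) (by omega)
    have := h.1
    have := h'.2
    omega
  exact le_antisymm (aux h h') (aux h' h)

theorem exists_inBlk {k : ℕ} (hk : k ≠ 0) : ∃ b, inBlk b k :=
  ⟨Nat.log 2 k, Nat.pow_log_le_self 2 hk, Nat.lt_pow_succ_log_self (by norm_num) k⟩

theorem cp_inBlk {α : Type*} [Primcodable α] {b k : α → ℕ} (hb : Computable b)
    (hk : Computable k) : ComputablePred fun a => inBlk (b a) (k a) :=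
  cp_and (cp_le (comp_pow hb) hk) (cp_lt hk (comp_pow (Computable.succ.comp hb)))

section

variable (Z : ℕ → ℕ → Bool)

/-- active blocks -/
def act (u j : ℕ) : Prop := j ≤ u ∧ (u = j ∨ ∃ x < 2 ^ j, Z u x ≠ Z (u - 1) x)

/-- the value `v` at `x` is never predicted before `k` is enumerated at stage `t` -/
def suc (e u t k x v : ℕ) : Prop :=
  wcol e t k = true ∧ ∀ s < t + 1, u ≤ s → wcol e s k = false → (Z s x).toNat ≠ v

/-- `G` sees a success in a block before the block `b` -/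
def SeesSuc (e : ℕ) (G : Set (ℕ × ℕ)) (b : ℕ) : Prop :=
  ∃ q ∈ G, ∃ k' t u' j' : ℕ, Nat.pair u' j' < b ∧ inBlk (Nat.pair u' j') k' ∧ act Z u' j' ∧
    q.1 = k' % 2 ^ j' ∧ suc Z e u' t k' q.1 q.2

/-- the released elements -/
def Rls (e : ℕ) (G : Set (ℕ × ℕ)) : Set ℕ :=
  {k | k = 0 ∨ ∃ u j : ℕ, inBlk (Nat.pair u j) k ∧ (¬ act Z u j ∨
    (∃ q ∈ G, ∃ s, q.1 = k % 2 ^ j ∧ u ≤ s ∧ q.2 = (Z s q.1).toNat ∧ wcol e s k = false) ∨
    SeesSuc Z e G (Nat.pair u j))}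

theorem SeesSuc_mono {e : ℕ} {G H : Set (ℕ × ℕ)} {b : ℕ} (h : G ⊆ H) (hs : SeesSuc Z e G b) :
    SeesSuc Z e H b := by
  obtain ⟨q, hq, r⟩ := hs
  exact ⟨q, h hq, r⟩

theorem Rls_mono {e : ℕ} {G H : Set (ℕ × ℕ)} (h : G ⊆ H) : Rls Z e G ⊆ Rls Z e H := by
  rintro k (hk | ⟨u, j, hb, hk | ⟨q, hq, r⟩ | hk⟩)
  · exact Or.inl hk
  · exact Or.inr ⟨u, j, hb, Or.inl hk⟩
  · exact Or.inr ⟨u, j, hb, Or.inr (Or.inl ⟨q, h hq, r⟩)⟩
  · exact Or.inr ⟨u, j, hb, Or.inr (Or.inr (SeesSuc_mono Z h hk))⟩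

/-- the relation defining the operator -/
def rel2 (x : ℕ × (List (ℕ × ℕ) × ℕ)) : Prop := x.2.2 ∈ Rls Z x.1 {q | q ∈ x.2.1}

theorem relApp_rel2 (e : ℕ) (G : Set (ℕ × ℕ)) : relApp (rel2 Z) e G = Rls Z e G := by
  ext k
  constructor
  · rintro ⟨l, hl, hk⟩
    exact Rls_mono Z (fun q hq => hl q hq) hk
  · rintro (hk | ⟨u, j, hb, hk | ⟨q, hq, r⟩ | ⟨q, hq, r⟩⟩)
    · exact ⟨[], by simp, Or.inl hk⟩
    · exact ⟨[], by simp, Or.inr ⟨u, j, hb, Or.inl hk⟩⟩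
    · exact ⟨[q], by simpa using hq, Or.inr ⟨u, j, hb, Or.inr (Or.inl ⟨q, by simp, r⟩)⟩⟩
    · exact ⟨[q], by simpa using hq, Or.inr ⟨u, j, hb, Or.inr (Or.inr ⟨q, by simp, r⟩)⟩⟩

theorem cp_mem {α : Type*} [Primcodable α] {l : α → List (ℕ × ℕ)} {q : α → ℕ × ℕ}
    (hl : Computable l) (hq : Computable q) : ComputablePred fun a => q a ∈ l a := by
  refine (cp_lt ((Primrec.list_idxOf (α := ℕ × ℕ)).to_comp.comp hq hl)
    (Computable.list_length.comp hl)).of_eq fun a => ?_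
  exact @List.idxOf_lt_length_iff (ℕ × ℕ) instBEqOfDecidableEq _ _ _

theorem Z_comp {α : Type*} [Primcodable α] (hZ : Computable fun p : ℕ × ℕ => Z p.1 p.2)
    {s x : α → ℕ} (hs : Computable s) (hx : Computable x) :
    Computable fun a => Z (s a) (x a) :=
  hZ.comp (Computable.pair hs hx)

theorem cp_act {α : Type*} [Primcodable α] (hZ : Computable fun p : ℕ × ℕ => Z p.1 p.2)
    {u j : α → ℕ} (hu : Computable u) (hj : Computable j) :
    ComputablePred fun a => act Z (u a) (j a) := by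
  refine cp_and (cp_le hj hu) (cp_or (cp_eq hu hj) ?_)
  refine cp_bex (p := fun a x => Z (u a) x ≠ Z (u a - 1) x) ?_ (comp_pow hj)
  refine cp_not (cp_eq ?_ ?_)
  · exact Z_comp Z hZ (hu.comp Computable.fst) Computable.snd
  · exact Z_comp Z hZ (Computable.pred.comp (hu.comp Computable.fst)) Computable.snd

theorem toNat_comp {α : Type*} [Primcodable α] {f : α → Bool} (hf : Computable f) :
    Computable fun a => (f a).toNat :=
  (Primrec.dom_bool Bool.toNat).to_comp.comp hf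

theorem cp_suc {α : Type*} [Primcodable α] (hZ : Computable fun p : ℕ × ℕ => Z p.1 p.2)
    {e u t k x v : α → ℕ} (he : Computable e) (hu : Computable u) (ht : Computable t)
    (hk : Computable k) (hx : Computable x) (hv : Computable v) :
    ComputablePred fun a => suc Z (e a) (u a) (t a) (k a) (x a) (v a) := by
  refine cp_and (cp_bool (wcol_comp he ht hk)) ?_
  refine cp_ball (p := fun a s => u a ≤ s → wcol (e a) s (k a) = false → (Z s (x a)).toNat ≠ v a)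
    ?_ (Computable.succ.comp ht)
  refine cp_imp (cp_le (hu.comp Computable.fst) Computable.snd) (cp_imp ?_ (cp_not ?_))
  · exact cp_eq (wcol_comp (he.comp Computable.fst) Computable.snd (hk.comp Computable.fst))
      (Computable.const false)
  · exact cp_eq (toNat_comp (Z_comp Z hZ Computable.snd (hx.comp Computable.fst)))
      (hv.comp Computable.fst)

theorem mod_comp {α : Type*} [Primcodable α] {f g : α → ℕ} (hf : Computable f)
    (hg : Computable g) : Computable fun a => f a % g a :=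
  Primrec.nat_mod.to_comp.comp hf hg

theorem pair_comp {α : Type*} [Primcodable α] {f g : α → ℕ} (hf : Computable f)
    (hg : Computable g) : Computable fun a => Nat.pair (f a) (g a) :=
  Primrec₂.natPair.to_comp.comp hf hg

theorem re_rel2 (hZ : Computable fun p : ℕ × ℕ => Z p.1 p.2) : REPred (rel2 Z) := by
  have F1 : Computable fun x : (ℕ × (List (ℕ × ℕ) × ℕ)) × (ℕ × ℕ) => x.1.1 :=
    Computable.fst.comp Computable.fst
  have FL : Computable fun x : (ℕ × (List (ℕ × ℕ) × ℕ)) × (ℕ × ℕ) => x.1.2.1 :=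
    Computable.fst.comp (Computable.snd.comp Computable.fst)
  have FK : Computable fun x : (ℕ × (List (ℕ × ℕ) × ℕ)) × (ℕ × ℕ) => x.1.2.2 :=
    Computable.snd.comp (Computable.snd.comp Computable.fst)
  have FU : Computable fun x : (ℕ × (List (ℕ × ℕ) × ℕ)) × (ℕ × ℕ) => x.2.1 :=
    Computable.fst.comp Computable.snd
  have FJ : Computable fun x : (ℕ × (List (ℕ × ℕ) × ℕ)) × (ℕ × ℕ) => x.2.2 :=
    Computable.snd.comp Computable.snd
  have h1 : REPred fun x : ℕ × (List (ℕ × ℕ) × ℕ) => x.2.2 = 0 ∨ ∃ r : ℕ × ℕ,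
      inBlk (Nat.pair r.1 r.2) x.2.2 ∧ (¬ act Z r.1 r.2 ∨
      (∃ c : (ℕ × ℕ) × ℕ, c.1 ∈ x.2.1 ∧ c.1.1 = x.2.2 % 2 ^ r.2 ∧ r.1 ≤ c.2 ∧
        c.1.2 = (Z c.2 c.1.1).toNat ∧ wcol x.1 c.2 x.2.2 = false) ∨
      (∃ c : (ℕ × ℕ) × ((ℕ × ℕ) × (ℕ × ℕ)), c.1 ∈ x.2.1 ∧
        Nat.pair c.2.2.1 c.2.2.2 < Nat.pair r.1 r.2 ∧
        inBlk (Nat.pair c.2.2.1 c.2.2.2) c.2.1.1 ∧ act Z c.2.2.1 c.2.2.2 ∧
        c.1.1 = c.2.1.1 % 2 ^ c.2.2.2 ∧ suc Z x.1 c.2.2.1 c.2.1.2 c.2.1.1 c.1.1 c.1.2)) := by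
    refine re_or (cp_eq (Computable.snd.comp Computable.snd) (Computable.const 0)).to_re ?_
    refine re_ex (p := fun (x : ℕ × (List (ℕ × ℕ) × ℕ)) (r : ℕ × ℕ) =>
      inBlk (Nat.pair r.1 r.2) x.2.2 ∧ (¬ act Z r.1 r.2 ∨
      (∃ c : (ℕ × ℕ) × ℕ, c.1 ∈ x.2.1 ∧ c.1.1 = x.2.2 % 2 ^ r.2 ∧ r.1 ≤ c.2 ∧
        c.1.2 = (Z c.2 c.1.1).toNat ∧ wcol x.1 c.2 x.2.2 = false) ∨
      (∃ c : (ℕ × ℕ) × ((ℕ × ℕ) × (ℕ × ℕ)), c.1 ∈ x.2.1 ∧
        Nat.pair c.2.2.1 c.2.2.2 < Nat.pair r.1 r.2 ∧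
        inBlk (Nat.pair c.2.2.1 c.2.2.2) c.2.1.1 ∧ act Z c.2.2.1 c.2.2.2 ∧
        c.1.1 = c.2.1.1 % 2 ^ c.2.2.2 ∧ suc Z x.1 c.2.2.1 c.2.1.2 c.2.1.1 c.1.1 c.1.2))) ?_
    refine re_and (cp_inBlk (pair_comp FU FJ) FK).to_re ?_
    refine re_or (cp_not (cp_act Z hZ FU FJ)).to_re (re_or ?_ ?_)
    · refine re_ex (p := fun (x : (ℕ × (List (ℕ × ℕ) × ℕ)) × (ℕ × ℕ)) (c : (ℕ × ℕ) × ℕ) =>
        c.1 ∈ x.1.2.1 ∧ c.1.1 = x.1.2.2 % 2 ^ x.2.2 ∧ x.2.1 ≤ c.2 ∧
        c.1.2 = (Z c.2 c.1.1).toNat ∧ wcol x.1.1 c.2 x.1.2.2 = false) ?_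
      have C1 : Computable fun y : ((ℕ × (List (ℕ × ℕ) × ℕ)) × (ℕ × ℕ)) × ((ℕ × ℕ) × ℕ) =>
        y.2.1 := Computable.fst.comp Computable.snd
      have C2 : Computable fun y : ((ℕ × (List (ℕ × ℕ) × ℕ)) × (ℕ × ℕ)) × ((ℕ × ℕ) × ℕ) =>
        y.2.2 := Computable.snd.comp Computable.snd
      refine (cp_and (cp_mem (FL.comp Computable.fst) C1) ?_).to_re
      refine cp_and (cp_eq (Computable.fst.comp C1)
        (mod_comp (FK.comp Computable.fst) (comp_pow (FJ.comp Computable.fst)))) ?_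
      refine cp_and (cp_le (FU.comp Computable.fst) C2) ?_
      refine cp_and (cp_eq (Computable.snd.comp C1) (toNat_comp (Z_comp Z hZ
        C2 (Computable.fst.comp C1)))) ?_
      exact cp_eq (wcol_comp (F1.comp Computable.fst) C2 (FK.comp Computable.fst))
        (Computable.const false)
    · refine re_ex (p := fun (x : (ℕ × (List (ℕ × ℕ) × ℕ)) × (ℕ × ℕ))
        (c : (ℕ × ℕ) × ((ℕ × ℕ) × (ℕ × ℕ))) => c.1 ∈ x.1.2.1 ∧
        Nat.pair c.2.2.1 c.2.2.2 < Nat.pair x.2.1 x.2.2 ∧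
        inBlk (Nat.pair c.2.2.1 c.2.2.2) c.2.1.1 ∧ act Z c.2.2.1 c.2.2.2 ∧
        c.1.1 = c.2.1.1 % 2 ^ c.2.2.2 ∧ suc Z x.1.1 c.2.2.1 c.2.1.2 c.2.1.1 c.1.1 c.1.2) ?_
      have C1 : Computable fun y : ((ℕ × (List (ℕ × ℕ) × ℕ)) × (ℕ × ℕ)) ×
        ((ℕ × ℕ) × ((ℕ × ℕ) × (ℕ × ℕ))) => y.2.1 := Computable.fst.comp Computable.snd
      have C2 : Computable fun y : ((ℕ × (List (ℕ × ℕ) × ℕ)) × (ℕ × ℕ)) ×
        ((ℕ × ℕ) × ((ℕ × ℕ) × (ℕ × ℕ))) => y.2.2 := Computable.snd.comp Computable.snd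
      have CK := Computable.fst.comp (Computable.fst.comp C2)
      have CT := Computable.snd.comp (Computable.fst.comp C2)
      have CU := Computable.fst.comp (Computable.snd.comp C2)
      have CJ := Computable.snd.comp (Computable.snd.comp C2)
      refine (cp_and (cp_mem (FL.comp Computable.fst) C1) ?_).to_re
      refine cp_and (cp_lt (pair_comp CU CJ)
        (pair_comp (FU.comp Computable.fst) (FJ.comp Computable.fst))) ?_
      refine cp_and (cp_inBlk (pair_comp CU CJ) CK) (cp_and (cp_act Z hZ CU CJ) (cp_and ?_ ?_))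
      · exact cp_eq (Computable.fst.comp C1) (mod_comp CK (comp_pow CJ))
      · exact cp_suc Z hZ (F1.comp Computable.fst) CU CT CK (Computable.fst.comp C1)
          (Computable.snd.comp C1)
  refine h1.of_eq fun x => ?_
  constructor
  · rintro (hk | ⟨r, hb, hk | ⟨c, h1, h2, h3, h4, h5⟩ | ⟨c, h1, h2, h3, h4, h5, h6⟩⟩)
    · exact Or.inl hk
    · exact Or.inr ⟨r.1, r.2, hb, Or.inl hk⟩
    · exact Or.inr ⟨r.1, r.2, hb, Or.inr (Or.inl ⟨c.1, h1, c.2, h2, h3, h4, h5⟩)⟩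
    · exact Or.inr ⟨r.1, r.2, hb, Or.inr (Or.inr ⟨c.1, h1, c.2.1.1, c.2.1.2, c.2.2.1, c.2.2.2,
        h2, h3, h4, h5, h6⟩)⟩
  · rintro (hk | ⟨u, j, hb, hk | ⟨q, h1, s, h2, h3, h4, h5⟩ | ⟨q, h1, k', t, u', j', h2, h3, h4,
      h5, h6⟩⟩)
    · exact Or.inl hk
    · exact Or.inr ⟨(u, j), hb, Or.inl hk⟩
    · exact Or.inr ⟨(u, j), hb, Or.inr (Or.inl ⟨(q, s), h1, h2, h3, h4, h5⟩)⟩
    · exact Or.inr ⟨(u, j), hb, Or.inr (Or.inr ⟨(q, ((k', t), (u', j'))), h1, h2, h3, h4, h5, h6⟩)⟩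

end

section

variable {Z : ℕ → ℕ → Bool} {z : ℕ → Bool}

theorem conv_lt (hz : ∀ x, ∃ N, ∀ s ≥ N, Z s x = z x) (M : ℕ) :
    ∃ N, ∀ s ≥ N, ∀ x < M, Z s x = z x := by
  induction M with
  | zero => exact ⟨0, fun s _ x hx => (Nat.not_lt_zero x hx).elim⟩
  | succ M ih =>
    obtain ⟨N, hN⟩ := ih
    obtain ⟨K, hK⟩ := hz M
    refine ⟨max N K, fun s hs x hx => ?_⟩
    rcases Nat.lt_succ_iff_lt_or_eq.1 hx with h | rfl
    · exact hN s (le_trans (le_max_left _ _) hs) x h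
    · exact hK s (le_trans (le_max_right _ _) hs)

theorem act_bdd (hz : ∀ x, ∃ N, ∀ s ≥ N, Z s x = z x) (J : ℕ) :
    ∃ Bd, ∀ u j, act Z u j → j < J → Nat.pair u j < Bd := by
  induction J with
  | zero => exact ⟨0, fun u j _ hj => (Nat.not_lt_zero j hj).elim⟩
  | succ J ih =>
    obtain ⟨Bd, hBd⟩ := ih
    obtain ⟨N, hN⟩ := conv_lt hz (2 ^ J)
    refine ⟨max Bd (Nat.pair (N + J + 2) J), fun u j hact hj => ?_⟩
    rcases Nat.lt_succ_iff_lt_or_eq.1 hj with h | rfl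
    · exact lt_of_lt_of_le (hBd u j hact h) (le_max_left _ _)
    · refine lt_of_lt_of_le ?_ (le_max_right _ _)
      refine Nat.pair_lt_pair_left _ ?_
      by_contra hcon
      rcases hact.2 with h | ⟨x, hx, hne⟩
      · omega
      · apply hne
        rw [hN u (by omega) x hx, hN (u - 1) (by omega) x hx]

theorem lastchange (hz : ∀ x, ∃ N, ∀ s ≥ N, Z s x = z x) (j : ℕ) :
    ∃ u, act Z u j ∧ ∀ s ≥ u, ∀ x < 2 ^ j, Z s x = Z u x := by
  classical
  have hex : ∃ u, j ≤ u ∧ ∀ s ≥ u, ∀ x < 2 ^ j, Z s x = Z u x := by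
    obtain ⟨N, hN⟩ := conv_lt hz (2 ^ j)
    refine ⟨max N j, le_max_right _ _, fun s hs x hx => ?_⟩
    rw [hN s (le_trans (le_max_left _ _) hs) x hx, hN _ (le_max_left _ _) x hx]
  obtain ⟨h1, h2⟩ := Nat.find_spec hex
  have hmin := fun m hm => Nat.find_min hex (m := m) hm
  generalize Nat.find hex = u at h1 h2 hmin
  refine ⟨u, ⟨h1, ?_⟩, h2⟩
  rcases Nat.lt_or_ge j u with h | h
  · right
    have h3 := hmin (u - 1) (by omega)
    by_contra hcon
    push Not at hcon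
    apply h3
    refine ⟨by omega, fun s hs x hx => ?_⟩
    rcases Nat.lt_or_ge s u with h4 | h4
    · have : s = u - 1 := by omega
      rw [this]
    · rw [h2 s h4 x hx, hcon x hx]
  · left
    omega

/-- the key dichotomy in the limit computable case -/
theorem col2_dich {A : Set ℕ} (hA : ¬ GenComp A)
    (hZ : Computable fun p : ℕ × ℕ => Z p.1 p.2) (hz : ∀ x, ∃ N, ∀ s ≥ N, Z s x = z x) (e : ℕ)
    (he : Z0 {k | ¬ ∃ s, wcol e s k = true}) :
    ∃ k, (∃ s, wcol e s k = true) ∧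
      k ∉ Rls Z e {p | (p.1 ∈ A ∧ p.2 = 1) ∨ (p.1 ∉ A ∧ p.2 = 0)} := by
  classical
  set GA : Set (ℕ × ℕ) := {p | (p.1 ∈ A ∧ p.2 = 1) ∨ (p.1 ∉ A ∧ p.2 = 0)} with hGA
  have hfun : ∀ {p q : ℕ × ℕ}, p ∈ GA → q ∈ GA → p.1 = q.1 → p.2 = q.2 := by
    rintro p q (⟨h1, h2⟩ | ⟨h1, h2⟩) (⟨h3, h4⟩ | ⟨h3, h4⟩) h
    · omega
    · rw [h] at h1; exact (h3 h1).elim
    · rw [h] at h1; exact (h1 h3).elim
    · omega
  by_cases hs : ∃ b, SeesSuc Z e GA b
  · have h1 := Nat.find_spec hs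
    have hmin := fun m hm => Nat.find_min hs (m := m) hm
    generalize Nat.find hs = b at h1 hmin
    obtain ⟨q, hq, k', t, u', j', hlt, hblk, hact, hqx, hsuc⟩ := h1
    refine ⟨k', ⟨t, hsuc.1⟩, ?_⟩
    rintro (h0 | ⟨u, j, hblk', hcase⟩)
    · have := hblk.1
      have := Nat.two_pow_pos (Nat.pair u' j')
      omega
    · have hpair := inBlk_unique hblk' hblk
      rw [Nat.pair_eq_pair] at hpair
      obtain ⟨rfl, rfl⟩ := hpair
      rcases hcase with h | ⟨q', hq', s, h3, h4, h5, h6⟩ | h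
      · exact h hact
      · have hqq : q'.1 = q.1 := by rw [h3, hqx]
        have hvv := hfun hq' hq hqq
        rcases Nat.lt_or_ge s (t + 1) with hst | hst
        · refine hsuc.2 s hst h4 h6 ?_
          rw [← hvv, h5, hqq]
        · have := wcol_mono (show t ≤ s by omega) hsuc.1
          rw [h6] at this
          exact absurd this (by simp)
      · exact hmin _ hlt h
  · exfalso
    apply hA
    -- the enumeration of a partial description
    let V : ℕ × ℕ → Prop := fun p => ∃ c : (ℕ × ℕ) × (ℕ × ℕ), act Z c.1.1 c.1.2 ∧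
      inBlk (Nat.pair c.1.1 c.1.2) c.2.1 ∧ wcol e c.2.2 c.2.1 = true ∧
      p.1 = c.2.1 % 2 ^ c.1.2 ∧ p.2 = (Z c.1.1 p.1).toNat ∧
      ∀ s < c.2.2 + 1, c.1.1 ≤ s → Z s p.1 = Z c.1.1 p.1
    have hV : REPred V := by
      refine re_ex (p := fun (p : ℕ × ℕ) (c : (ℕ × ℕ) × (ℕ × ℕ)) => act Z c.1.1 c.1.2 ∧
        inBlk (Nat.pair c.1.1 c.1.2) c.2.1 ∧ wcol e c.2.2 c.2.1 = true ∧
        p.1 = c.2.1 % 2 ^ c.1.2 ∧ p.2 = (Z c.1.1 p.1).toNat ∧
        ∀ s < c.2.2 + 1, c.1.1 ≤ s → Z s p.1 = Z c.1.1 p.1) ?_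
      have CX : Computable fun y : (ℕ × ℕ) × ((ℕ × ℕ) × (ℕ × ℕ)) => y.1.1 :=
        Computable.fst.comp Computable.fst
      have CY : Computable fun y : (ℕ × ℕ) × ((ℕ × ℕ) × (ℕ × ℕ)) => y.1.2 :=
        Computable.snd.comp Computable.fst
      have CU : Computable fun y : (ℕ × ℕ) × ((ℕ × ℕ) × (ℕ × ℕ)) => y.2.1.1 :=
        Computable.fst.comp (Computable.fst.comp Computable.snd)
      have CJ : Computable fun y : (ℕ × ℕ) × ((ℕ × ℕ) × (ℕ × ℕ)) => y.2.1.2 :=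
        Computable.snd.comp (Computable.fst.comp Computable.snd)
      have CK : Computable fun y : (ℕ × ℕ) × ((ℕ × ℕ) × (ℕ × ℕ)) => y.2.2.1 :=
        Computable.fst.comp (Computable.snd.comp Computable.snd)
      have CT : Computable fun y : (ℕ × ℕ) × ((ℕ × ℕ) × (ℕ × ℕ)) => y.2.2.2 :=
        Computable.snd.comp (Computable.snd.comp Computable.snd)
      refine (cp_and (cp_act Z hZ CU CJ) (cp_and (cp_inBlk (pair_comp CU CJ) CK)
        (cp_and (cp_bool (wcol_comp (Computable.const e) CT CK)) (cp_and ?_ (cp_and ?_ ?_))))).to_re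
      · exact cp_eq CX (mod_comp CK (comp_pow CJ))
      · exact cp_eq CY (toNat_comp (Z_comp Z hZ CU CX))
      · refine cp_ball (p := fun (y : (ℕ × ℕ) × ((ℕ × ℕ) × (ℕ × ℕ))) s =>
          y.2.1.1 ≤ s → Z s y.1.1 = Z y.2.1.1 y.1.1) ?_ (Computable.succ.comp CT)
        refine cp_imp (cp_le (CU.comp Computable.fst) Computable.snd) ?_
        exact cp_eq (Z_comp Z hZ Computable.snd (CX.comp Computable.fst))
          (Z_comp Z hZ (CU.comp Computable.fst) (CX.comp Computable.fst))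
    refine ⟨V, hV, ?_, ?_⟩
    · rintro x y ⟨c, h1, h2, h3, h4, h5, h6⟩
      obtain ⟨v, hv⟩ : ∃ v, (x, v) ∈ GA := by
        by_cases hx : x ∈ A
        · exact ⟨1, Or.inl ⟨hx, rfl⟩⟩
        · exact ⟨0, Or.inr ⟨hx, rfl⟩⟩
      have h7 : ¬ suc Z e c.1.1 c.2.2 c.2.1 x v := by
        intro hcon
        exact hs ⟨Nat.pair c.1.1 c.1.2 + 1, (x, v), hv, c.2.1, c.2.2, c.1.1, c.1.2,
          Nat.lt_succ_self _, h2, h1, h4, hcon⟩
      unfold suc at h7
      push Not at h7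
      obtain ⟨s, hs1, hs2, hs3, hs4⟩ := h7 h3
      have h8 : y = v := by
        have h9 : y = (Z c.1.1 x).toNat := h5
        rw [h9, ← hs4, h6 s hs1 hs2]
      rw [h8]
      exact hv
    · refine Z0_dyadic fun m => ?_
      obtain ⟨N, hN⟩ := he m
      refine ⟨N, fun j hj => ?_⟩
      obtain ⟨u, hact, hconst⟩ := lastchange hz j
      have hjb : j ≤ Nat.pair u j := Nat.right_le_pair u j
      generalize hb : Nat.pair u j = b at hjb
      have h1 : {k | k % 2 ^ j ∈ {x | ∀ y, (x, y) ∉ {p | V p}}} ∩ Set.Ico (2 ^ b) (2 ^ (b + 1)) ⊆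
          {k | ¬ ∃ s, wcol e s k = true} ∩ Set.Iio (2 ^ (b + 1)) := by
        rintro k ⟨hk, hk1, hk2⟩
        refine ⟨?_, hk2⟩
        rintro ⟨t, ht⟩
        refine hk (Z u (k % 2 ^ j)).toNat ⟨((u, j), (k, t)), hact, ?_, ht, rfl, rfl, ?_⟩
        · rw [hb]; exact ⟨hk1, hk2⟩
        · intro s _ hus
          exact hconst s hus _ (Nat.mod_lt _ (Nat.two_pow_pos j))
      have h2 := Set.ncard_le_ncard h1 (fin_inter _ _)
      rw [block_card _ hjb] at h2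
      have hbN : N ≤ 2 ^ (b + 1) := by
        have : b < 2 ^ b := Nat.lt_two_pow_self
        have h4 : 2 ^ (b + 1) = 2 * 2 ^ b := by ring
        omega
      have h3 := hN (2 ^ (b + 1)) hbN
      have h5 : 2 ^ (b + 1) = 2 ^ (b - j) * (2 * 2 ^ j) := by
        rw [mul_left_comm, ← pow_add, Nat.sub_add_cancel hjb, pow_succ, mul_comm]
      have h6 : 2 ^ (b - j) * (m * ({x | ∀ y, (x, y) ∉ {p | V p}} ∩ Set.Iio (2 ^ j)).ncard) ≤
          2 ^ (b - j) * (2 * 2 ^ j) := by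
        calc 2 ^ (b - j) * (m * ({x | ∀ y, (x, y) ∉ {p | V p}} ∩ Set.Iio (2 ^ j)).ncard)
            = m * (2 ^ (b - j) * ({x | ∀ y, (x, y) ∉ {p | V p}} ∩ Set.Iio (2 ^ j)).ncard) := by
              ring
          _ ≤ m * ({k | ¬ ∃ s, wcol e s k = true} ∩ Set.Iio (2 ^ (b + 1))).ncard := by gcongr
          _ ≤ 2 ^ (b + 1) := h3
          _ = _ := h5
      exact Nat.le_of_mul_le_mul_left h6 (Nat.two_pow_pos _)

/-- generic descriptions release almost everything -/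
theorem col2_dense {A : Set ℕ} (hz : ∀ x, ∃ N, ∀ s ≥ N, Z s x = z x)
    (h0 : Z0 {x | ¬ (x ∈ A ↔ z x = true)}) (e : ℕ) {G : Set (ℕ × ℕ)} (hG : Desc A G) :
    Z0 (Rls Z e G)ᶜ := by
  classical
  by_cases hs : ∃ b, SeesSuc Z e G b
  · obtain ⟨b, hb⟩ := hs
    refine Z0_finite ((Set.finite_Iio (2 ^ (b + 1))).subset ?_)
    intro k hk
    by_contra hcon
    have hcon' : 2 ^ (b + 1) ≤ k := by simpa using hcon
    have hk0 : k ≠ 0 := by
      have := Nat.two_pow_pos (b + 1)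
      omega
    obtain ⟨b', hb'⟩ := exists_inBlk hk0
    have hbb' : b ≤ b' := by
      by_contra hlt
      have h5 : 2 ^ (b' + 1) ≤ 2 ^ (b + 1) := Nat.pow_le_pow_right (by norm_num) (by omega)
      have := hb'.2
      omega
    apply hk
    refine Or.inr ⟨b'.unpair.1, b'.unpair.2, by rwa [Nat.pair_unpair], Or.inr (Or.inr ?_)⟩
    rw [Nat.pair_unpair]
    obtain ⟨q, hq, k', t, u', j', hlt, r⟩ := hb
    exact ⟨q, hq, k', t, u', j', lt_of_lt_of_le hlt hbb', r⟩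
  · set X1 : Set ℕ := {x | ¬ (x ∈ A ↔ z x = true)} ∪ {x | ∀ y, (x, y) ∉ G} with hX1
    have hX1z : Z0 X1 := h0.union hG.2
    refine Z0_blocks fun m => ?_
    obtain ⟨N, hN⟩ := hX1z m
    obtain ⟨Bd, hBd⟩ := act_bdd hz N
    refine ⟨Bd, fun b hb => ?_⟩
    have hpair : Nat.pair b.unpair.1 b.unpair.2 = b := Nat.pair_unpair b
    generalize b.unpair.1 = u at hpair
    generalize b.unpair.2 = j at hpair
    have hjb : j ≤ b := by rw [← hpair]; exact Nat.right_le_pair u j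
    by_cases hact : act Z u j
    · have hjN : N ≤ j := by
        by_contra hcon
        have := hBd u j hact (by omega)
        omega
      have h1 : (Rls Z e G)ᶜ ∩ Set.Ico (2 ^ b) (2 ^ (b + 1)) ⊆
          {k | k % 2 ^ j ∈ X1} ∩ Set.Ico (2 ^ b) (2 ^ (b + 1)) := by
        rintro k ⟨hk, hk1, hk2⟩
        refine ⟨?_, hk1, hk2⟩
        have hblk : inBlk (Nat.pair u j) k := by rw [hpair]; exact ⟨hk1, hk2⟩
        show k % 2 ^ j ∈ X1
        by_contra hcon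
        have hc1 : k % 2 ^ j ∈ A ↔ z (k % 2 ^ j) = true := by
          by_contra h; exact hcon (Or.inl h)
        have hc2 : ∃ y, (k % 2 ^ j, y) ∈ G := by
          by_contra h
          push Not at h
          exact hcon (Or.inr h)
        obtain ⟨v, hv⟩ := hc2
        have hvz : v = (z (k % 2 ^ j)).toNat := by
          rcases hG.1 _ _ hv with ⟨h3, h4⟩ | ⟨h3, h4⟩
          · rw [hc1.1 h3, h4]; rfl
          · have : z (k % 2 ^ j) = false := by
              by_contra h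
              exact h3 (hc1.2 (by simpa using h))
            rw [this, h4]; rfl
        -- rule (a) fails
        have ha : ∀ s ≥ u, (Z s (k % 2 ^ j)).toNat = v → wcol e s k = true := by
          intro s hs1 hs2
          by_contra hf
          apply hk
          refine Or.inr ⟨u, j, hblk, Or.inr (Or.inl ⟨_, hv, s, rfl, hs1, hs2.symm, ?_⟩)⟩
          simpa using hf
        obtain ⟨M, hM⟩ := hz (k % 2 ^ j)
        have ht := ha (max M u) (le_max_right _ _)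
          (by rw [hM _ (le_max_left _ _), hvz])
        apply hs
        refine ⟨Nat.pair u j + 1, _, hv, k, max M u, u, j, Nat.lt_succ_self _, hblk, hact, rfl,
          ht, ?_⟩
        intro s _ hus hws hval
        have := ha s hus hval
        rw [hws] at this
        exact absurd this (by simp)
      have h2 := Set.ncard_le_ncard h1 ((Set.finite_Ico _ _).subset Set.inter_subset_right)
      rw [block_card _ hjb] at h2
      have hjN2 : N ≤ 2 ^ j := by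
        have : j < 2 ^ j := Nat.lt_two_pow_self
        omega
      have h3 := hN (2 ^ j) hjN2
      calc m * ((Rls Z e G)ᶜ ∩ Set.Ico (2 ^ b) (2 ^ (b + 1))).ncard
          ≤ m * (2 ^ (b - j) * (X1 ∩ Set.Iio (2 ^ j)).ncard) := by gcongr
        _ = 2 ^ (b - j) * (m * (X1 ∩ Set.Iio (2 ^ j)).ncard) := by ring
        _ ≤ 2 ^ (b - j) * 2 ^ j := by gcongr
        _ = 2 ^ b := by rw [← pow_add, Nat.sub_add_cancel hjb]
    · have h1 : (Rls Z e G)ᶜ ∩ Set.Ico (2 ^ b) (2 ^ (b + 1)) = ∅ := by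
        rw [Set.eq_empty_iff_forall_notMem]
        rintro k ⟨hk, hk1, hk2⟩
        apply hk
        exact Or.inr ⟨u, j, by rw [hpair]; exact ⟨hk1, hk2⟩, Or.inl hact⟩
      rw [h1]
      simp

end

theorem bounding_two {A : Set ℕ} (hA : ¬ GenComp A) (Z : ℕ → ℕ → Bool) (z : ℕ → Bool)
    (hZ : Computable fun p : ℕ × ℕ => Z p.1 p.2) (hz : ∀ x, ∃ N, ∀ s ≥ N, Z s x = z x)
    (h0 : Z0 {x | ¬ (x ∈ A ↔ z x = true)}) : Bounding A := by
  refine bounding_of_columns (rel2 Z) (re_rel2 Z hZ)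
    (fun e => Rls Z e {p | (p.1 ∈ A ∧ p.2 = 1) ∨ (p.1 ∉ A ∧ p.2 = 0)}) ?_ ?_
  · intro e G hG
    rw [relApp_rel2]
    exact ⟨Rls_mono Z fun p hp => hG.1 p.1 p.2 hp, col2_dense hz h0 e hG⟩
  · intro e he
    exact col2_dich hA hZ hz e he

end Pool.Agent.MP_abf483_lc
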