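import Pool.Agent.MP_abf483_lc.Final

/-! # Gluing the columns -/

set_option autoImplicit false

namespace Pool.Agent.MP_abf483_lc

theorem col_unique {e e' k k' : ℕ} (h : 2 ^ e * (2 * k + 1) = 2 ^ e' * (2 * k' + 1)) :
    e = e' ∧ k = k' := by
  have aux : ∀ {e e' k k' : ℕ}, e ≤ e' → 2 ^ e * (2 * k + 1) = 2 ^ e' * (2 * k' + 1) →
      e = e' ∧ k = k' := by
    intro e e' k k' hle h
    obtain ⟨d, rfl⟩ := Nat.exists_eq_add_of_le hle
    rw [pow_add, mul_assoc] at h
    have h2 := Nat.eq_of_mul_eq_mul_left (Nat.two_pow_pos e) h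
    rcases d with _ | d
    · simp only [pow_zero, one_mul] at h2
      exact ⟨rfl, by omega⟩
    · rw [pow_succ, mul_comm (2 ^ d) 2, mul_assoc] at h2
      omega
  rcases le_total e e' with hle | hle
  · exact aux hle h
  · obtain ⟨h1, h2⟩ := aux hle h.symm
    exact ⟨h1.symm, h2.symm⟩

/-- the `e`-th column of the `e`-th r.e. set, by stages -/
def wcol (e s k : ℕ) : Bool := Wst e s (2 ^ e * (2 * k + 1))

theorem wcol_mono {e s t k : ℕ} (hst : s ≤ t) (h : wcol e s k = true) : wcol e t k = true :=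
  Wst_mono hst h

theorem pow_prim : Primrec₂ ((· ^ ·) : ℕ → ℕ → ℕ) :=
  Primrec₂.unpaired'.1 Nat.Primrec.pow

theorem comp_pow {α : Type*} [Primcodable α] {e : α → ℕ} (he : Computable e) :
    Computable fun a => 2 ^ e a :=
  pow_prim.to_comp.comp (Computable.const 2) he

theorem wcol_comp {α : Type*} [Primcodable α] {e s k : α → ℕ} (he : Computable e)
    (hs : Computable s) (hk : Computable k) : Computable fun a => wcol (e a) (s a) (k a) := by
  unfold wcol
  refine Wst_comp he hs ?_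
  refine Primrec.nat_mul.to_comp.comp (comp_pow he) ?_
  exact Computable.succ.comp (Primrec.nat_double.to_comp.comp hk)

/-- released elements of the column `e` -/
def relApp (rel : ℕ × (List (ℕ × ℕ) × ℕ) → Prop) (e : ℕ) (G : Set (ℕ × ℕ)) : Set ℕ :=
  {k | ∃ l : List (ℕ × ℕ), (∀ q ∈ l, q ∈ G) ∧ rel (e, (l, k))}

theorem bounding_of_columns {A : Set ℕ} (rel : ℕ × (List (ℕ × ℕ) × ℕ) → Prop) (hrel : REPred rel)
    (Bcol : ℕ → Set ℕ)
    (h1 : ∀ e G, Desc A G → relApp rel e G ⊆ Bcol e ∧ Z0 (relApp rel e G)ᶜ)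
    (h2 : ∀ e, Z0 {k | ¬ ∃ s, wcol e s k = true} → ∃ k, (∃ s, wcol e s k = true) ∧ k ∉ Bcol e) :
    Bounding A := by
  refine ⟨fun x => x.2.2 = 1 ∧ (x.2.1 = 0 ∨
    ∃ r : ℕ × ℕ, x.2.1 = 2 ^ r.1 * (2 * r.2 + 1) ∧ rel (r.1, (x.1, r.2))), ?_,
    {y | y = 0 ∨ ∃ e k, y = 2 ^ e * (2 * k + 1) ∧ k ∈ Bcol e}, ?_, ?_⟩
  · refine re_and (cp_eq (Computable.snd.comp Computable.snd) (Computable.const 1)).to_re ?_
    refine re_or (cp_eq (Computable.fst.comp Computable.snd) (Computable.const 0)).to_re ?_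
    refine re_ex (p := fun (x : List (ℕ × ℕ) × (ℕ × ℕ)) (r : ℕ × ℕ) =>
      x.2.1 = 2 ^ r.1 * (2 * r.2 + 1) ∧ rel (r.1, (x.1, r.2))) ?_
    refine re_and (cp_eq ?_ ?_).to_re ?_
    · exact Computable.fst.comp (Computable.snd.comp Computable.fst)
    · refine Primrec.nat_mul.to_comp.comp (comp_pow (Computable.fst.comp Computable.snd)) ?_
      exact Computable.succ.comp (Primrec.nat_double.to_comp.comp
        (Computable.snd.comp Computable.snd))
    · refine re_comp hrel (Computable.pair (Computable.fst.comp Computable.snd)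
        (Computable.pair (Computable.fst.comp Computable.fst) (Computable.snd.comp Computable.snd)))
  · intro G hG
    constructor
    · rintro p ⟨l, hl, hp1, hp2⟩
      refine ⟨?_, hp1⟩
      rcases hp2 with hp2 | ⟨r, hr1, hr2⟩
      · exact Or.inl hp2
      · exact Or.inr ⟨r.1, r.2, hr1, (h1 r.1 G hG).1 ⟨l, hl, hr2⟩⟩
    · refine Z0_columns fun e => ((h1 e G hG).2).mono ?_
      rintro k hk ⟨l, hl, hr⟩
      exact hk 1 ⟨l, hl, rfl, Or.inr ⟨(e, k), rfl, hr⟩⟩
  · intro D hD hZ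
    obtain ⟨e, he⟩ := exists_index hD
    have h3 : Z0 {k | ¬ ∃ s, wcol e s k = true} := by
      refine (Z0_column hZ e).mono ?_
      intro k hk hD2
      exact hk ((he _).1 hD2)
    obtain ⟨k, hk1, hk2⟩ := h2 e h3
    refine ⟨2 ^ e * (2 * k + 1), (he _).2 hk1, ?_⟩
    rintro (h4 | ⟨e', k', h4, h5⟩)
    · have : 0 < 2 ^ e * (2 * k + 1) := by positivity
      omega
    · obtain ⟨rfl, rfl⟩ := col_unique h4
      exact hk2 h5

end Pool.Agent.MP_abf483_lc
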