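import Mathlib

/-! # Sets of density zero -/

set_option autoImplicit false

namespace Pool.Agent.MP_abf483_lc

/-- density zero in arithmetic form -/
def Z0 (S : Set ℕ) : Prop := ∀ m : ℕ, ∃ N, ∀ n ≥ N, m * (S ∩ Set.Iio n).ncard ≤ n

theorem fin_inter (S : Set ℕ) (n : ℕ) : (S ∩ Set.Iio n).Finite :=
  (Set.finite_Iio n).subset Set.inter_subset_right

theorem ncard_Iio_nat (n : ℕ) : (Set.Iio n).ncard = n := by
  rw [Set.ncard_eq_toFinset_card']; simp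

theorem ncard_inter_le (S : Set ℕ) (n : ℕ) : (S ∩ Set.Iio n).ncard ≤ n := by
  have := Set.ncard_le_ncard (Set.inter_subset_right : S ∩ Set.Iio n ⊆ Set.Iio n)
    (Set.finite_Iio n)
  rwa [ncard_Iio_nat] at this

theorem Z0.mono {S T : Set ℕ} (h : S ⊆ T) (hT : Z0 T) : Z0 S := by
  intro m
  obtain ⟨N, hN⟩ := hT m
  refine ⟨N, fun n hn => le_trans (Nat.mul_le_mul le_rfl ?_) (hN n hn)⟩
  exact Set.ncard_le_ncard (Set.inter_subset_inter_left _ h) (fin_inter T n)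

theorem Z0.union {S T : Set ℕ} (hS : Z0 S) (hT : Z0 T) : Z0 (S ∪ T) := by
  intro m
  obtain ⟨N, hN⟩ := hS (2 * m)
  obtain ⟨M, hM⟩ := hT (2 * m)
  refine ⟨max N M, fun n hn => ?_⟩
  have h1 := hN n (le_trans (le_max_left _ _) hn)
  have h2 := hM n (le_trans (le_max_right _ _) hn)
  have h3 : ((S ∪ T) ∩ Set.Iio n).ncard ≤ (S ∩ Set.Iio n).ncard + (T ∩ Set.Iio n).ncard := by
    rw [Set.union_inter_distrib_right]
    exact Set.ncard_union_le _ _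
  have h4 : 2 * (m * ((S ∪ T) ∩ Set.Iio n).ncard) ≤ 2 * n := by
    calc 2 * (m * ((S ∪ T) ∩ Set.Iio n).ncard)
        ≤ 2 * (m * ((S ∩ Set.Iio n).ncard + (T ∩ Set.Iio n).ncard)) := by gcongr
      _ = 2 * m * (S ∩ Set.Iio n).ncard + 2 * m * (T ∩ Set.Iio n).ncard := by ring
      _ ≤ n + n := add_le_add h1 h2
      _ = 2 * n := by ring
  omega

theorem Z0_finite {S : Set ℕ} (h : S.Finite) : Z0 S := by
  intro m
  refine ⟨m * S.ncard, fun n hn => le_trans (Nat.mul_le_mul le_rfl ?_) hn⟩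
  exact Set.ncard_le_ncard Set.inter_subset_left h

theorem Z0_empty : Z0 ∅ := Z0_finite Set.finite_empty

theorem Z0_blocks {S : Set ℕ}
    (h : ∀ m, ∃ B, ∀ b ≥ B, m * (S ∩ Set.Ico (2 ^ b) (2 ^ (b + 1))).ncard ≤ 2 ^ b) : Z0 S := by
  intro m
  obtain ⟨B, hB⟩ := h (4 * m)
  have key : ∀ L ≥ B, 4 * m * (S ∩ Set.Iio (2 ^ L)).ncard ≤ 4 * m * 2 ^ B + 2 ^ L := by
    intro L hL
    induction L, hL using Nat.le_induction with
    | base =>
      have := ncard_inter_le S (2 ^ B)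
      calc 4 * m * (S ∩ Set.Iio (2 ^ B)).ncard ≤ 4 * m * 2 ^ B := by gcongr
        _ ≤ _ := Nat.le_add_right _ _
    | succ L hL ih =>
      have h1 : S ∩ Set.Iio (2 ^ (L + 1)) ⊆
          (S ∩ Set.Iio (2 ^ L)) ∪ (S ∩ Set.Ico (2 ^ L) (2 ^ (L + 1))) := by
        intro x hx
        by_cases hx2 : x < 2 ^ L
        · exact Or.inl ⟨hx.1, hx2⟩
        · exact Or.inr ⟨hx.1, by simpa using hx2, hx.2⟩
      have h2 : (S ∩ Set.Iio (2 ^ (L + 1))).ncard ≤ (S ∩ Set.Iio (2 ^ L)).ncard +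
          (S ∩ Set.Ico (2 ^ L) (2 ^ (L + 1))).ncard := by
        refine le_trans (Set.ncard_le_ncard h1 ?_) (Set.ncard_union_le _ _)
        exact (fin_inter _ _).union ((Set.finite_Ico _ _).subset Set.inter_subset_right)
      have h3 := hB L hL
      calc 4 * m * (S ∩ Set.Iio (2 ^ (L + 1))).ncard
          ≤ 4 * m * ((S ∩ Set.Iio (2 ^ L)).ncard +
            (S ∩ Set.Ico (2 ^ L) (2 ^ (L + 1))).ncard) := by gcongr
        _ = 4 * m * (S ∩ Set.Iio (2 ^ L)).ncard +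
            4 * m * (S ∩ Set.Ico (2 ^ L) (2 ^ (L + 1))).ncard := by ring
        _ ≤ (4 * m * 2 ^ B + 2 ^ L) + 2 ^ L := add_le_add ih h3
        _ = 4 * m * 2 ^ B + 2 ^ (L + 1) := by ring
  refine ⟨max (2 ^ B) (2 * m * 2 ^ B) , fun n hn => ?_⟩
  have hn1 : 2 ^ B ≤ n := le_trans (le_max_left _ _) hn
  have hn2 : 2 * m * 2 ^ B ≤ n := le_trans (le_max_right _ _) hn
  have hn0 : n ≠ 0 := by
    have := Nat.one_le_two_pow (n := B)
    omega
  set L := Nat.log 2 n with hL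
  have hL1 : 2 ^ L ≤ n := Nat.pow_log_le_self 2 hn0
  have hL2 : n < 2 ^ (L + 1) := Nat.lt_pow_succ_log_self (by norm_num) n
  have hLB : B ≤ L + 1 := by
    by_contra hcon
    have h5 : 2 ^ (L + 1) ≤ 2 ^ B := Nat.pow_le_pow_right (by norm_num) (by omega)
    omega
  have h6 := key (L + 1) hLB
  have h7 : (S ∩ Set.Iio n).ncard ≤ (S ∩ Set.Iio (2 ^ (L + 1))).ncard :=
    Set.ncard_le_ncard (Set.inter_subset_inter_right _ (Set.Iio_subset_Iio hL2.le)) (fin_inter _ _)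
  have h8 : 4 * (m * (S ∩ Set.Iio n).ncard) ≤ 2 * n + 2 * n := by
    calc 4 * (m * (S ∩ Set.Iio n).ncard) = 4 * m * (S ∩ Set.Iio n).ncard := by ring
      _ ≤ 4 * m * (S ∩ Set.Iio (2 ^ (L + 1))).ncard := by gcongr
      _ ≤ 4 * m * 2 ^ B + 2 ^ (L + 1) := h6
      _ = 2 * (2 * m * 2 ^ B) + 2 * 2 ^ L := by ring
      _ ≤ 2 * n + 2 * n := by gcongr
  omega

theorem Z0_dyadic {S : Set ℕ}
    (h : ∀ m, ∃ J, ∀ j ≥ J, m * (S ∩ Set.Iio (2 ^ j)).ncard ≤ 2 * 2 ^ j) : Z0 S := by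
  intro m
  obtain ⟨J, hJ⟩ := h (4 * m)
  refine ⟨2 ^ J, fun n hn => ?_⟩
  have hn0 : n ≠ 0 := by
    have := Nat.one_le_two_pow (n := J)
    omega
  set L := Nat.log 2 n with hL
  have hL1 : 2 ^ L ≤ n := Nat.pow_log_le_self 2 hn0
  have hL2 : n < 2 ^ (L + 1) := Nat.lt_pow_succ_log_self (by norm_num) n
  have hLJ : J ≤ L + 1 := by
    by_contra hcon
    have h5 : 2 ^ (L + 1) ≤ 2 ^ J := Nat.pow_le_pow_right (by norm_num) (by omega)
    omega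
  have h6 := hJ (L + 1) hLJ
  have h7 : (S ∩ Set.Iio n).ncard ≤ (S ∩ Set.Iio (2 ^ (L + 1))).ncard :=
    Set.ncard_le_ncard (Set.inter_subset_inter_right _ (Set.Iio_subset_Iio hL2.le)) (fin_inter _ _)
  have h8 : 4 * (m * (S ∩ Set.Iio n).ncard) ≤ 4 * n := by
    calc 4 * (m * (S ∩ Set.Iio n).ncard) = 4 * m * (S ∩ Set.Iio n).ncard := by ring
      _ ≤ 4 * m * (S ∩ Set.Iio (2 ^ (L + 1))).ncard := by gcongr
      _ ≤ 2 * 2 ^ (L + 1) := h6
      _ = 4 * 2 ^ L := by ring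
      _ ≤ 4 * n := by gcongr
  omega

theorem col_inj (e : ℕ) : Function.Injective fun k : ℕ => 2 ^ e * (2 * k + 1) := by
  intro a b h
  have h1 : 2 ^ e * (2 * a + 1) = 2 ^ e * (2 * b + 1) := h
  have h2 := Nat.eq_of_mul_eq_mul_left (Nat.two_pow_pos e) h1
  omega

theorem Z0_column {S : Set ℕ} (h : Z0 S) (e : ℕ) : Z0 {k | 2 ^ e * (2 * k + 1) ∈ S} := by
  intro m
  obtain ⟨N, hN⟩ := h (m * (3 * 2 ^ e))
  refine ⟨N + 1, fun n hn => ?_⟩
  have h0 : n ≤ 2 ^ e * (2 * n + 1) := by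
    calc n ≤ 1 * (2 * n + 1) := by omega
      _ ≤ 2 ^ e * (2 * n + 1) := Nat.mul_le_mul Nat.one_le_two_pow le_rfl
  have h1 := hN (2 ^ e * (2 * n + 1)) (by omega)
  have h2 : ({k | 2 ^ e * (2 * k + 1) ∈ S} ∩ Set.Iio n).ncard ≤
      (S ∩ Set.Iio (2 ^ e * (2 * n + 1))).ncard := by
    refine Set.ncard_le_ncard_of_injOn (fun k : ℕ => 2 ^ e * (2 * k + 1)) ?_
      ((col_inj e).injOn) (fin_inter _ _)
    rintro k ⟨hk, hkn⟩
    refine ⟨hk, ?_⟩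
    have hkn' : k < n := hkn
    exact Nat.mul_lt_mul_of_pos_left (by omega) (Nat.two_pow_pos e)
  have h3 : 2 ^ e * (2 * n + 1) ≤ 3 * 2 ^ e * n := by
    calc 2 ^ e * (2 * n + 1) ≤ 2 ^ e * (3 * n) := Nat.mul_le_mul le_rfl (by omega)
      _ = 3 * 2 ^ e * n := by ring
  have h4 : 3 * 2 ^ e * (m * ({k | 2 ^ e * (2 * k + 1) ∈ S} ∩ Set.Iio n).ncard) ≤
      3 * 2 ^ e * n := by
    calc 3 * 2 ^ e * (m * ({k | 2 ^ e * (2 * k + 1) ∈ S} ∩ Set.Iio n).ncard)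
        ≤ 3 * 2 ^ e * (m * (S ∩ Set.Iio (2 ^ e * (2 * n + 1))).ncard) := by gcongr
      _ = m * (3 * 2 ^ e) * (S ∩ Set.Iio (2 ^ e * (2 * n + 1))).ncard := by ring
      _ ≤ _ := le_trans h1 h3
  exact Nat.le_of_mul_le_mul_left h4 (by positivity)

theorem Z0_of_column {S : Set ℕ} {e : ℕ} (h : Z0 {k | 2 ^ e * (2 * k + 1) ∈ S}) :
    Z0 (S ∩ Set.range fun k : ℕ => 2 ^ e * (2 * k + 1)) := by
  intro m
  obtain ⟨N, hN⟩ := h m
  refine ⟨N, fun n hn => le_trans (Nat.mul_le_mul le_rfl ?_) (hN n hn)⟩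
  have h1 : (S ∩ Set.range fun k : ℕ => 2 ^ e * (2 * k + 1)) ∩ Set.Iio n ⊆
      (fun k : ℕ => 2 ^ e * (2 * k + 1)) '' ({k | 2 ^ e * (2 * k + 1) ∈ S} ∩ Set.Iio n) := by
    rintro x ⟨⟨hx, k, rfl⟩, hxn⟩
    refine ⟨k, ⟨hx, ?_⟩, rfl⟩
    have h3 : 2 ^ e * (2 * k + 1) < n := hxn
    have h4 : 1 * (2 * k + 1) ≤ 2 ^ e * (2 * k + 1) := Nat.mul_le_mul Nat.one_le_two_pow le_rfl
    show k < n
    omega
  refine le_trans (Set.ncard_le_ncard h1 ((fin_inter _ _).image _)) ?_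
  exact Set.ncard_image_le (fin_inter _ _)

theorem Z0_columns {S : Set ℕ} (h : ∀ e, Z0 {k | 2 ^ e * (2 * k + 1) ∈ S}) : Z0 S := by
  have h1 : ∀ E : ℕ, Z0 (S ∩ {y | ¬ 2 ^ E ∣ y}) := by
    intro E
    induction E with
    | zero =>
      refine Z0_empty.mono ?_
      rintro x ⟨_, hx⟩
      exact (hx (by simp)).elim
    | succ E ih =>
      refine (ih.union (Z0_of_column (h E))).mono ?_
      rintro x ⟨hx, hx2⟩
      by_cases hd : 2 ^ E ∣ x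
      · obtain ⟨q, rfl⟩ := hd
        rcases Nat.even_or_odd' q with ⟨k, hk | hk⟩
        · exact (hx2 ⟨k, by rw [hk]; ring⟩).elim
        · subst hk
          exact Or.inr ⟨hx, k, rfl⟩
      · exact Or.inl ⟨hx, hd⟩
  intro m
  have hE : 4 * m < 2 ^ (4 * m) := Nat.lt_two_pow_self
  obtain ⟨N, hN⟩ := h1 (4 * m) (2 * m)
  refine ⟨max N (4 * m), fun n hn => ?_⟩
  have hn1 : N ≤ n := le_trans (le_max_left _ _) hn
  have hn2 : 4 * m ≤ n := le_trans (le_max_right _ _) hn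
  have h2 := hN n hn1
  set E := 4 * m with hEdef
  have h3 : S ∩ Set.Iio n ⊆ ((S ∩ {y | ¬ 2 ^ E ∣ y}) ∩ Set.Iio n) ∪
      (fun q : ℕ => 2 ^ E * q) '' (Set.Iio (n / 2 ^ E + 1)) := by
    rintro x ⟨hx, hxn⟩
    by_cases hd : 2 ^ E ∣ x
    · obtain ⟨q, rfl⟩ := hd
      refine Or.inr ⟨q, ?_, rfl⟩
      have h4 : 2 ^ E * q < n := hxn
      have h5 : q ≤ n / 2 ^ E := by
        rw [Nat.le_div_iff_mul_le (Nat.two_pow_pos E)]
        rw [Nat.mul_comm]; exact h4.le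
      show q < n / 2 ^ E + 1
      omega
    · exact Or.inl ⟨⟨hx, hd⟩, hxn⟩
  have h4 : (S ∩ Set.Iio n).ncard ≤ ((S ∩ {y | ¬ 2 ^ E ∣ y}) ∩ Set.Iio n).ncard +
      (n / 2 ^ E + 1) := by
    refine le_trans (Set.ncard_le_ncard h3 ((fin_inter _ _).union
      ((Set.finite_Iio _).image _))) ?_
    refine le_trans (Set.ncard_union_le _ _) ?_
    refine Nat.add_le_add_left ?_ _
    refine le_trans (Set.ncard_image_le (Set.finite_Iio _)) ?_
    rw [ncard_Iio_nat]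
  have h5 : E * (n / 2 ^ E) ≤ n := by
    calc E * (n / 2 ^ E) ≤ 2 ^ E * (n / 2 ^ E) := Nat.mul_le_mul hE.le le_rfl
      _ ≤ n := Nat.mul_div_le n (2 ^ E)
  have h6 : 4 * (m * (S ∩ Set.Iio n).ncard) ≤ 4 * n := by
    calc 4 * (m * (S ∩ Set.Iio n).ncard)
        ≤ 4 * (m * (((S ∩ {y | ¬ 2 ^ E ∣ y}) ∩ Set.Iio n).ncard + (n / 2 ^ E + 1))) := by gcongr
      _ = 2 * (2 * m * ((S ∩ {y | ¬ 2 ^ E ∣ y}) ∩ Set.Iio n).ncard) + E * (n / 2 ^ E) + E := by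
          rw [hEdef]; ring
      _ ≤ 2 * n + n + n := by gcongr
      _ = 4 * n := by ring
  omega

theorem block_card (X : Set ℕ) {j b : ℕ} (hj : j ≤ b) :
    ({k | k % 2 ^ j ∈ X} ∩ Set.Ico (2 ^ b) (2 ^ (b + 1))).ncard =
      2 ^ (b - j) * (X ∩ Set.Iio (2 ^ j)).ncard := by
  classical
  have hb : 2 ^ b = 2 ^ (b - j) * 2 ^ j := by rw [← pow_add, Nat.sub_add_cancel hj]
  have hb1 : 2 ^ (b + 1) = 2 ^ (b - j + 1) * 2 ^ j := by
    rw [← pow_add]; congr 1; omega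
  have h1 : ({k | k % 2 ^ j ∈ X} ∩ Set.Ico (2 ^ b) (2 ^ (b + 1))) =
      (fun p : ℕ × ℕ => p.1 * 2 ^ j + p.2) ''
        ((Set.Ico (2 ^ (b - j)) (2 ^ (b - j + 1))) ×ˢ (X ∩ Set.Iio (2 ^ j))) := by
    ext k
    constructor
    · rintro ⟨hk, hk1, hk2⟩
      refine ⟨(k / 2 ^ j, k % 2 ^ j), ⟨⟨?_, ?_⟩, hk, ?_⟩, ?_⟩
      · show 2 ^ (b - j) ≤ k / 2 ^ j
        rw [Nat.le_div_iff_mul_le (Nat.two_pow_pos j), ← hb]
        exact hk1
      · show k / 2 ^ j < 2 ^ (b - j + 1)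
        rw [Nat.div_lt_iff_lt_mul (Nat.two_pow_pos j), ← hb1]
        exact hk2
      · exact Nat.mod_lt _ (Nat.two_pow_pos j)
      · exact Nat.div_add_mod' k (2 ^ j)
    · rintro ⟨⟨q, r⟩, ⟨⟨hq1, hq2⟩, hr1, hr2⟩, rfl⟩
      have hr2' : r < 2 ^ j := hr2
      have hq1' : 2 ^ (b - j) ≤ q := hq1
      have hq2' : q + 1 ≤ 2 ^ (b - j + 1) := hq2
      refine ⟨?_, ?_, ?_⟩
      · show (q * 2 ^ j + r) % 2 ^ j ∈ X
        rw [Nat.add_comm, Nat.add_mul_mod_self_right, Nat.mod_eq_of_lt hr2']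
        exact hr1
      · show 2 ^ b ≤ q * 2 ^ j + r
        rw [hb]
        exact le_trans (Nat.mul_le_mul hq1' le_rfl) (Nat.le_add_right _ _)
      · show q * 2 ^ j + r < 2 ^ (b + 1)
        rw [hb1]
        calc q * 2 ^ j + r < q * 2 ^ j + 2 ^ j := by omega
          _ = (q + 1) * 2 ^ j := by ring
          _ ≤ _ := Nat.mul_le_mul hq2' le_rfl
  rw [h1, Set.ncard_image_of_injOn, Set.ncard_prod]
  · congr 1
    rw [Set.ncard_eq_toFinset_card']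
    simp [pow_succ]
    omega
  · rintro ⟨q, r⟩ ⟨_, _, hr⟩ ⟨q', r'⟩ ⟨_, _, hr'⟩ heq
    have hr1 : r < 2 ^ j := hr
    have hr2 : r' < 2 ^ j := hr'
    have heq' : q * 2 ^ j + r = q' * 2 ^ j + r' := heq
    have e1 : r = r' := by
      have := congrArg (· % 2 ^ j) heq'
      simpa [Nat.add_comm _ r, Nat.add_comm _ r', Nat.add_mul_mod_self_right,
        Nat.mod_eq_of_lt hr1, Nat.mod_eq_of_lt hr2] using this
    subst e1
    have e2 : q * 2 ^ j = q' * 2 ^ j := by omega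
    have e3 := Nat.eq_of_mul_eq_mul_right (Nat.two_pow_pos j) e2
    rw [e3]

theorem meets_blocks {S : Set ℕ} (h : Z0 S) :
    ∃ B, ∀ b ≥ B, ∃ k, 2 ^ b ≤ k ∧ k < 2 ^ (b + 1) ∧ k ∉ S := by
  obtain ⟨N, hN⟩ := h 3
  refine ⟨N, fun b hb => ?_⟩
  by_contra hcon
  push Not at hcon
  have h1 : Set.Ico (2 ^ b) (2 ^ (b + 1)) ⊆ S ∩ Set.Iio (2 ^ (b + 1)) :=
    fun k hk => ⟨hcon k hk.1 hk.2, hk.2⟩
  have h2 := Set.ncard_le_ncard h1 (fin_inter _ _)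
  have h3 : (Set.Ico (2 ^ b) (2 ^ (b + 1))).ncard = 2 ^ b := by
    rw [Set.ncard_eq_toFinset_card']
    simp [pow_succ]
    omega
  have hb2 : b < 2 ^ (b + 1) := lt_trans Nat.lt_two_pow_self (by
    rw [pow_succ]; have := Nat.two_pow_pos b; omega)
  have h4 := hN (2 ^ (b + 1)) (by omega)
  rw [h3] at h2
  have h5 : 2 ^ (b + 1) = 2 * 2 ^ b := by ring
  have := Nat.two_pow_pos b
  omega

theorem tendsto_iff_Z0 (D : Set ℕ) :
    Filter.Tendsto (fun n : ℕ => (((D ∩ Set.Iio n).ncard : ℝ) / (n : ℝ)))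
      Filter.atTop (nhds 1) ↔ Z0 Dᶜ := by
  have hsum : ∀ n : ℕ, (D ∩ Set.Iio n).ncard + (Dᶜ ∩ Set.Iio n).ncard = n := by
    intro n
    have h1 := Set.ncard_inter_add_ncard_diff_eq_ncard (Set.Iio n) D (Set.finite_Iio n)
    rw [ncard_Iio_nat] at h1
    have e1 : Set.Iio n ∩ D = D ∩ Set.Iio n := Set.inter_comm _ _
    have e2 : Set.Iio n \ D = Dᶜ ∩ Set.Iio n := by
      ext x; simp [and_comm]
    rw [e1, e2] at h1
    exact h1
  constructor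
  · intro h m
    have h1 : ∀ᶠ n : ℕ in Filter.atTop,
        1 - 1 / ((m : ℝ) + 1) < ((D ∩ Set.Iio n).ncard : ℝ) / (n : ℝ) := by
      refine h.eventually (lt_mem_nhds ?_)
      have : (0 : ℝ) < 1 / ((m : ℝ) + 1) := by positivity
      linarith
    obtain ⟨N, hN⟩ := Filter.eventually_atTop.1 h1
    refine ⟨max N 1, fun n hn => ?_⟩
    have hn1 : N ≤ n := le_trans (le_max_left _ _) hn
    have hn2 : 1 ≤ n := le_trans (le_max_right _ _) hn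
    have hn3 : (0 : ℝ) < n := by exact_mod_cast hn2
    have h2 := hN n hn1
    rw [lt_div_iff₀ hn3] at h2
    have h3 : (((D ∩ Set.Iio n).ncard : ℝ)) + ((Dᶜ ∩ Set.Iio n).ncard : ℝ) = n := by
      exact_mod_cast hsum n
    have hm : (0 : ℝ) < (m : ℝ) + 1 := by positivity
    have h4 : ((Dᶜ ∩ Set.Iio n).ncard : ℝ) < n / ((m : ℝ) + 1) := by
      have : (1 - 1 / ((m : ℝ) + 1)) * n = n - n / ((m : ℝ) + 1) := by ring
      rw [this] at h2
      linarith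
    rw [lt_div_iff₀ hm] at h4
    have h5 : ((m * (Dᶜ ∩ Set.Iio n).ncard : ℕ) : ℝ) ≤ n := by
      push_cast
      nlinarith [Nat.cast_nonneg (α := ℝ) (Dᶜ ∩ Set.Iio n).ncard]
    exact_mod_cast h5
  · intro h
    rw [Metric.tendsto_atTop]
    intro ε hε
    obtain ⟨m, hm⟩ := exists_nat_gt (1 / ε)
    obtain ⟨N, hN⟩ := h m
    refine ⟨max N 1, fun n hn => ?_⟩
    have hn1 : N ≤ n := le_trans (le_max_left _ _) hn
    have hn2 : 1 ≤ n := le_trans (le_max_right _ _) hn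
    have hn3 : (0 : ℝ) < n := by exact_mod_cast hn2
    have h2 := hN n hn1
    have h3 : (((D ∩ Set.Iio n).ncard : ℝ)) + ((Dᶜ ∩ Set.Iio n).ncard : ℝ) = n := by
      exact_mod_cast hsum n
    have h4 : (m : ℝ) * ((Dᶜ ∩ Set.Iio n).ncard : ℝ) ≤ n := by exact_mod_cast h2
    have hmpos : (0 : ℝ) < m := lt_trans (by positivity) hm
    have h5 : ((D ∩ Set.Iio n).ncard : ℝ) / n - 1 = - (((Dᶜ ∩ Set.Iio n).ncard : ℝ) / n) := by
      field_simp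
      linarith
    rw [Real.dist_eq, h5, abs_neg, abs_of_nonneg (by positivity), div_lt_iff₀ hn3]
    have h6 : 1 < ε * m := by
      rw [div_lt_iff₀ hε] at hm
      linarith [mul_comm ε (m : ℝ)]
    have h7 : m * (((Dᶜ ∩ Set.Iio n).ncard : ℝ)) < m * (ε * n) := by
      calc m * (((Dᶜ ∩ Set.Iio n).ncard : ℝ)) ≤ n := h4
        _ = 1 * n := by ring
        _ < (ε * m) * n := by gcongr
        _ = m * (ε * n) := by ring
    exact lt_of_mul_lt_mul_left h7 hmpos.le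

end Pool.Agent.MP_abf483_lc
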