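import Pool.Agent.MP_abf483_lc.RE
import Pool.Agent.MP_abf483_lc.Density

/-! # The finite extension argument -/

set_option autoImplicit false

namespace Pool.Agent.MP_abf483_lc

/-- `G` is (the coded graph of) a generic description of `A` -/
def Desc (A : Set ℕ) (G : Set (ℕ × ℕ)) : Prop :=
  (∀ x y : ℕ, (x, y) ∈ G → ((x ∈ A ∧ y = 1) ∨ (x ∉ A ∧ y = 0))) ∧ Z0 {x | ∀ y, (x, y) ∉ G}

/-- application of an enumeration operator -/
def opApp (W : List (ℕ × ℕ) × (ℕ × ℕ) → Prop) (G : Set (ℕ × ℕ)) : Set (ℕ × ℕ) :=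
  {p | ∃ l : List (ℕ × ℕ), (∀ q ∈ l, q ∈ G) ∧ W (l, p)}

/-- generic computability -/
def GenComp (A : Set ℕ) : Prop := ∃ V : ℕ × ℕ → Prop, REPred V ∧ Desc A {p | V p}

/-- generic reducibility -/
def Red (A B : Set ℕ) : Prop :=
  ∃ W : List (ℕ × ℕ) × (ℕ × ℕ) → Prop, REPred W ∧ ∀ G, Desc B G → Desc A (opApp W G)

/-- density-one bounding, in the form used below -/
def Bounding (A : Set ℕ) : Prop :=
  ∃ W : List (ℕ × ℕ) × (ℕ × ℕ) → Prop, REPred W ∧ ∃ B : Set ℕ,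
    (∀ G, Desc A G → (∀ p ∈ opApp W G, p.1 ∈ B ∧ p.2 = 1) ∧ Z0 {x | ∀ y, (x, y) ∉ opApp W G}) ∧
    (∀ D : ℕ → Prop, REPred D → Z0 {x | ¬ D x} → ∃ x, D x ∧ x ∉ B)

theorem opApp_mono {W : List (ℕ × ℕ) × (ℕ × ℕ) → Prop} {G H : Set (ℕ × ℕ)} (h : G ⊆ H) :
    opApp W G ⊆ opApp W H :=
  fun _ ⟨l, hl, hw⟩ => ⟨l, fun q hq => h (hl q hq), hw⟩

theorem re_opApp {W : List (ℕ × ℕ) × (ℕ × ℕ) → Prop} (hW : REPred W) {g : ℕ × ℕ → Prop}
    (hg : PrimrecPred g) : REPred fun p => p ∈ opApp W {q | g q} := by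
  refine re_ex (p := fun (p : ℕ × ℕ) (l : List (ℕ × ℕ)) =>
    (∀ q ∈ l, q ∈ {q | g q}) ∧ W (l, p)) ?_
  refine re_and ?_ ?_
  · have h1 : PrimrecPred fun L : List (ℕ × ℕ) => ∀ a ∈ L, g a := hg.forall_mem_list
    exact re_comp (p := fun L : List (ℕ × ℕ) => ∀ a ∈ L, g a) h1.computablePred.to_re
      Computable.snd
  · exact re_comp hW (Computable.pair Computable.snd Computable.fst)

theorem primrec_notMem (F : Finset ℕ) : PrimrecPred fun r : ℕ × ℕ => r.1 ∉ F := by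
  classical
  induction F using Finset.induction_on with
  | empty => exact (Primrec.eq.comp (Primrec.const 0) (Primrec.const 0)).of_eq (by simp)
  | insert a F _ ih =>
    have h1 : PrimrecPred fun r : ℕ × ℕ => ¬ r.1 = a :=
      (Primrec.eq.comp Primrec.fst (Primrec.const a)).not
    exact (h1.and ih).of_eq fun r => by simp

/-- the total description of `A` -/
theorem desc_total (A : Set ℕ) :
    Desc A {p | (p.1 ∈ A ∧ p.2 = 1) ∨ (p.1 ∉ A ∧ p.2 = 0)} := by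
  refine ⟨fun x y h => h, Z0_empty.mono ?_⟩
  intro x hx
  by_cases h : x ∈ A
  · exact (hx 1 (Or.inl ⟨h, rfl⟩)).elim
  · exact (hx 0 (Or.inr ⟨h, rfl⟩)).elim

theorem final_step {A : Set ℕ} (hA : ¬ GenComp A) (hB : Bounding A) :
    ∃ C, Red C A ∧ ¬ Red C ∅ ∧ ¬ Red A C := by
  classical
  obtain ⟨W, hW, B, hWB, hDB⟩ := hB
  obtain ⟨f, hf⟩ := re_countable ℕ
  obtain ⟨g, hg⟩ := re_countable (List (ℕ × ℕ) × (ℕ × ℕ))
  -- correctness of a pair
  let right : ℕ × ℕ → Prop := fun p => (p.1 ∈ A ∧ p.2 = 1) ∨ (p.1 ∉ A ∧ p.2 = 0)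
  let ok : ℕ × Finset ℕ → Prop := fun p => ∀ x ∈ p.2, x < p.1 ∧ x ∉ B
  let le : ℕ × Finset ℕ → ℕ × Finset ℕ → Prop := fun q p =>
    p.1 ≤ q.1 ∧ p.2 ⊆ q.2 ∧ ∀ x ∈ q.2, x < p.1 → x ∈ p.2
  have le_trans' : ∀ {a b c}, le a b → le b c → le a c := by
    rintro a b c ⟨h1, h2, h3⟩ ⟨h4, h5, h6⟩
    exact ⟨h4.trans h1, h5.trans h2, fun x hx hxc => h6 x (h3 x hx (by omega)) hxc⟩
  let R1 : ℕ → ℕ × Finset ℕ → Prop := fun n q =>
    REPred (f n) → Z0 {x | ¬ f n x} → ∃ x ∈ q.2, f n x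
  let R2 : ℕ → ℕ × Finset ℕ → Prop := fun n q =>
    (∃ p ∈ opApp (g n) {r | r.2 = 1 ∧ r.1 < q.1 ∧ r.1 ∉ q.2}, ¬ right p) ∨
    (∀ p ∈ opApp (g n) {r | r.2 = 1 ∧ r.1 ∉ q.2}, right p)
  have step1 : ∀ n p, ok p → ∃ q, ok q ∧ le q p ∧ R1 n q := by
    intro n p hp
    by_cases hre : REPred (f n) ∧ Z0 {x | ¬ f n x}
    · -- the set `f n` minus an initial segment
      have h1 : REPred fun x => f n x ∧ p.1 ≤ x :=
        re_and hre.1 (cp_le (Computable.const p.1) Computable.id).to_re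
      have h2 : Z0 {x | ¬ (f n x ∧ p.1 ≤ x)} := by
        refine (hre.2.union (Z0_finite (Set.finite_Iio p.1))).mono ?_
        intro x hx
        by_cases hx2 : p.1 ≤ x
        · exact Or.inl fun h => hx ⟨h, hx2⟩
        · exact Or.inr (not_le.1 hx2)
      obtain ⟨x, ⟨hx1, hx2⟩, hx3⟩ := hDB _ h1 h2
      refine ⟨(x + 1, insert x p.2), ?_, ⟨?_, ?_, ?_⟩, ?_⟩
      · intro y hy
        rcases Finset.mem_insert.1 hy with rfl | hy
        · exact ⟨Nat.lt_succ_self _, hx3⟩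
        · exact ⟨by have := (hp y hy).1; show y < x + 1; omega, (hp y hy).2⟩
      · show p.1 ≤ x + 1
        omega
      · exact Finset.subset_insert _ _
      · intro y hy hyp
        rcases Finset.mem_insert.1 hy with rfl | hy
        · omega
        · exact hy
      · exact fun _ _ => ⟨x, Finset.mem_insert_self _ _, hx1⟩
    · refine ⟨p, hp, ⟨le_rfl, Finset.Subset.refl _, fun x hx _ => hx⟩, ?_⟩
      intro h1 h2
      exact (hre ⟨h1, h2⟩).elim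
  have step2 : ∀ n p, ok p → ∃ q, ok q ∧ le q p ∧ q.2 = p.2 ∧ R2 n q := by
    intro n p hp
    by_cases hw : ∀ r ∈ opApp (g n) {r | r.2 = 1 ∧ r.1 ∉ p.2}, right r
    · exact ⟨p, hp, ⟨le_rfl, Finset.Subset.refl _, fun x hx _ => hx⟩, rfl, Or.inr hw⟩
    · push Not at hw
      obtain ⟨r, ⟨l, hl, hgl⟩, hr⟩ := hw
      obtain ⟨N, hN⟩ : ∃ N, ∀ q ∈ l, q.1 < N := by
        refine ⟨(l.map Prod.fst).sum + 1, fun q hq => ?_⟩
        have := List.single_le_sum (l := l.map Prod.fst) (by simp) q.1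
          (List.mem_map.2 ⟨q, hq, rfl⟩)
        omega
      refine ⟨(max p.1 N, p.2), fun x hx => ⟨lt_of_lt_of_le (hp x hx).1 (le_max_left _ _),
        (hp x hx).2⟩, ⟨le_max_left _ _, Finset.Subset.refl _, fun x hx _ => hx⟩, rfl, Or.inl ?_⟩
      refine ⟨r, ⟨l, fun q hq => ?_, hgl⟩, hr⟩
      exact ⟨(hl q hq).1, lt_of_lt_of_le (hN q hq) (le_max_right _ _), (hl q hq).2⟩
  have step : ∀ n (p : {p // ok p}), ∃ q : {p // ok p}, le q.1 p.1 ∧ R1 n q.1 ∧ R2 n q.1 := by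
    rintro n ⟨p, hp⟩
    obtain ⟨q, hq, hqp, h1⟩ := step1 n p hp
    obtain ⟨r, hr, hrq, he, h2⟩ := step2 n q hq
    refine ⟨⟨r, hr⟩, le_trans' hrq hqp, ?_, h2⟩
    intro ha hb
    obtain ⟨x, hx, hfx⟩ := h1 ha hb
    exact ⟨x, by rw [he]; exact hx, hfx⟩
  choose nxt hnxt using step
  let P : ℕ → {p // ok p} := fun n => Nat.rec ⟨(0, ∅), by
    intro x hx
    exact (Finset.notMem_empty x hx).elim⟩ (fun n q => nxt n q) n
  have hP : ∀ n, le (P (n + 1)).1 (P n).1 ∧ R1 n (P (n + 1)).1 ∧ R2 n (P (n + 1)).1 :=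
    fun n => hnxt n (P n)
  have hPle : ∀ n m, n ≤ m → le (P m).1 (P n).1 := by
    intro n m hnm
    induction m, hnm using Nat.le_induction with
    | base => exact ⟨le_rfl, Finset.Subset.refl _, fun x hx _ => hx⟩
    | succ m _ ih => exact le_trans' (hP m).1 ih
  let C : Set ℕ := {x | ∀ n, x ∉ (P n).1.2}
  have hBC : B ⊆ C := fun x hx n hxn => ((P n).2 x hxn).2 hx
  have hC : ∀ n x, x < (P n).1.1 → x ∉ (P n).1.2 → x ∈ C := by
    intro n x hx1 hx2 m hm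
    rcases le_total n m with h | h
    · exact hx2 ((hPle n m h).2.2 x hm hx1)
    · exact hx2 ((hPle m n h).2.1 hm)
  have hBz : Z0 Bᶜ := by
    refine ((hWB _ (desc_total A)).2).mono ?_
    intro x hx y hy
    exact hx ((hWB _ (desc_total A)).1 _ hy).1
  have hCz : Z0 Cᶜ := hBz.mono (Set.compl_subset_compl.2 hBC)
  refine ⟨C, ?_, ?_, ?_⟩
  · -- `C` is reducible to `A`
    refine ⟨W, hW, fun G hG => ⟨fun x y hxy => ?_, (hWB G hG).2⟩⟩
    have := (hWB G hG).1 _ hxy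
    exact Or.inl ⟨hBC this.1, this.2⟩
  · -- `C` is not generically computable
    rintro ⟨V, hV, hVC⟩
    have h0 : Desc (∅ : Set ℕ) {p | p.2 = 0} := by
      refine ⟨fun x y h => Or.inr ⟨Set.notMem_empty x, h⟩, Z0_empty.mono ?_⟩
      intro x hx
      exact (hx 0 rfl).elim
    have h1 := hVC _ h0
    have hp0 : PrimrecPred fun q : ℕ × ℕ => q.2 = 0 :=
      Primrec.eq.comp Primrec.snd (Primrec.const 0)
    have h2 : REPred fun x : ℕ => (x, 1) ∈ opApp V {p : ℕ × ℕ | p.2 = 0} :=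
      re_comp (re_opApp hV hp0) (Computable.pair Computable.id (Computable.const 1))
    have h3 : Z0 {x : ℕ | ¬ (x, 1) ∈ opApp V {p : ℕ × ℕ | p.2 = 0}} := by
      refine (h1.2.union hCz).mono ?_
      intro x hx
      by_cases hy : ∃ y, (x, y) ∈ opApp V {p : ℕ × ℕ | p.2 = 0}
      · obtain ⟨y, hy⟩ := hy
        rcases h1.1 x y hy with ⟨_, h4⟩ | ⟨h4, _⟩
        · subst h4
          exact (hx hy).elim
        · exact Or.inr h4
      · push Not at hy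
        exact Or.inl hy
    obtain ⟨n, hn⟩ := hf _ h2
    have h5 := (hP n).2.1
    obtain ⟨x, hx1, hx2⟩ := h5 (by rw [hn]; exact h2) (by rw [hn]; exact h3)
    rw [hn] at hx2
    rcases h1.1 x 1 hx2 with ⟨h6, _⟩ | ⟨_, h6⟩
    · exact h6 (n + 1) hx1
    · exact absurd h6 (by norm_num)
  · -- `A` is not reducible to `C`
    rintro ⟨V, hV, hVA⟩
    obtain ⟨n, hn⟩ := hg V hV
    have h0 : Desc C {p | p.2 = 1 ∧ p.1 ∈ C} := by
      refine ⟨fun x y h => Or.inl ⟨h.2, h.1⟩, hCz.mono ?_⟩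
      intro x hx hxC
      exact hx 1 ⟨rfl, hxC⟩
    have h1 := hVA _ h0
    rcases (hP n).2.2 with ⟨p, hp, hpr⟩ | h2
    · rw [hn] at hp
      have h3 : p ∈ opApp V {p | p.2 = 1 ∧ p.1 ∈ C} := by
        refine opApp_mono ?_ hp
        rintro r ⟨hr1, hr2, hr3⟩
        exact ⟨hr1, hC (n + 1) r.1 hr2 hr3⟩
      exact hpr (h1.1 p.1 p.2 h3)
    · rw [hn] at h2
      apply hA
      have hp1 : PrimrecPred fun r : ℕ × ℕ => r.2 = 1 ∧ r.1 ∉ (P (n + 1)).1.2 :=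
        (Primrec.eq.comp Primrec.snd (Primrec.const 1)).and (primrec_notMem _)
      refine ⟨fun p => p ∈ opApp V {r | r.2 = 1 ∧ r.1 ∉ (P (n + 1)).1.2}, re_opApp hV hp1,
        fun x y hxy => h2 (x, y) hxy, h1.2.mono ?_⟩
      intro x hx y hy
      refine hx y (opApp_mono ?_ hy)
      rintro r ⟨hr1, hr2⟩
      exact ⟨hr1, hr2 (n + 1)⟩

end Pool.Agent.MP_abf483_lc
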